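import Pool.Agent.Lib_helper20.Noether.Stmts

/-!
# Artin's theorem for the field of invariants of a permutation group
-/

open MvPolynomial IntermediateField

namespace Pool.Agent.Lib_helper20.Noether

namespace ARTIN

theorem perm_algebraMap {ι : Type} (σ : Equiv.Perm ι) (f : MvPolynomial ι ℂ) :
    perm σ (algebraMap (MvPolynomial ι ℂ) (E ι) f) =
      algebraMap (MvPolynomial ι ℂ) (E ι) (rename σ f) := by
  simp [perm]

theorem perm_x {ι : Type} (σ : Equiv.Perm ι) (i : ι) : perm σ (x i) = x (σ i) := by
  rw [x, perm_algebraMap, rename_X, x]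

theorem hom_ext {ι : Type} (a b : E ι ≃ₐ[ℂ] E ι)
    (h : ∀ f : MvPolynomial ι ℂ, a (algebraMap (MvPolynomial ι ℂ) (E ι) f) =
      b (algebraMap (MvPolynomial ι ℂ) (E ι) f)) : a = b := by
  ext f
  obtain ⟨p, q, hq, rfl⟩ := IsFractionRing.div_surjective (A := MvPolynomial ι ℂ) f
  rw [map_div₀, map_div₀, h, h]

/-- The action as a group homomorphism. -/
noncomputable def act (ι : Type) : Equiv.Perm ι →* (E ι ≃ₐ[ℂ] E ι) where
  toFun := perm
  map_one' := by
    apply hom_ext
    intro f
    rw [perm_algebraMap]
    simp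
  map_mul' := by
    intro σ τ
    apply hom_ext
    intro f
    rw [perm_algebraMap, AlgEquiv.mul_apply, perm_algebraMap, perm_algebraMap, rename_rename]
    rfl

theorem act_injective (ι : Type) : Function.Injective (act ι) := by
  intro σ τ h
  ext i
  have h1 : perm σ (x i) = perm τ (x i) := by
    have := congrArg (fun a : E ι ≃ₐ[ℂ] E ι => a (x i)) h
    exact this
  rw [perm_x, perm_x] at h1
  have h2 := IsFractionRing.injective (MvPolynomial ι ℂ) (E ι) h1
  exact X_injective h2

end ARTIN

open ARTIN in
theorem ARTIN_thm : Stmt_ARTIN := by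
  intro ι _ H
  classical
  rw [relfinrank_top_right]
  set R : Subgroup (E ι ≃ₐ[ℂ] E ι) := H.map (act ι) with hR
  haveI : Finite R := by
    rw [hR]
    exact Finite.of_equiv H ((H.equivMapOfInjective (act ι) (act_injective ι)).toEquiv)
  haveI : Fintype R := Fintype.ofFinite R
  have hcard : Nat.card R = Nat.card H :=
    (Nat.card_congr (H.equivMapOfInjective (act ι) (act_injective ι)).toEquiv).symm
  have hsub : (invField H).toSubfield = FixedPoints.subfield R (E ι) := by
    ext f
    constructor
    · intro hf r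
      obtain ⟨σ, hσ, hr⟩ := r.2
      have : (r : E ι ≃ₐ[ℂ] E ι) f = f := by
        rw [← hr]
        exact hf σ hσ
      exact this
    · intro hf σ hσ
      exact hf ⟨act ι σ, ⟨σ, hσ, rfl⟩⟩
  have key : Module.finrank (FixedPoints.subfield R (E ι)) (E ι) = Fintype.card R :=
    FixedPoints.finrank_eq_card R (E ι)
  have h1 : Module.finrank (invField H) (E ι) =
      Module.finrank (invField H).toSubfield (E ι) := rfl
  rw [h1, hsub, key, ← hcard, Nat.card_eq_fintype_card]

end Pool.Agent.Lib_helper20.Noether
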