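import Pool.Agent.Lib_helper20.Noether.Stmts

/-!
# Base change of a finite extension inside a field (module BASE)
-/

open MvPolynomial IntermediateField

namespace Pool.Agent.Lib_helper20.Noether

namespace BASE

theorem sup_eq {K Ω : Type} [Field K] [Field Ω] [Algebra K Ω] (B M : IntermediateField K Ω) :
    adjoin M (B : Set Ω) = extendScalars (le_sup_left : M ≤ M ⊔ B) := by
  apply le_antisymm
  · rw [adjoin_le_iff]
    intro x hx
    exact (mem_extendScalars (le_sup_left : M ≤ M ⊔ B)).2 ((le_sup_right : B ≤ M ⊔ B) hx)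
  · rw [extendScalars_le_iff]
    refine sup_le ?_ ?_
    · intro x hx
      exact IntermediateField.algebraMap_mem (adjoin M (B : Set Ω)) (⟨x, hx⟩ : M)
    · intro x hx
      exact subset_adjoin M (B : Set Ω) hx

end BASE

theorem BASE_thm : Stmt_BASE := by
  intro K Ω _ _ _ _ A B M hAB hAM h
  letI : Algebra A M := (inclusion hAM).toAlgebra
  haveI : IsScalarTower A M Ω := IsScalarTower.of_algebraMap_eq fun _ => rfl
  set L : IntermediateField A Ω := extendScalars hAB with hL
  rw [relfinrank_eq_finrank_of_le hAB] at h ⊢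
  rw [relfinrank_eq_finrank_of_le (le_sup_left : M ≤ M ⊔ B), ← BASE.sup_eq B M]
  haveI hfin : FiniteDimensional A L := Module.finite_of_finrank_pos (Nat.pos_of_ne_zero h)
  haveI : Algebra.IsAlgebraic A L := Algebra.IsAlgebraic.of_finite A L
  have h1 : Module.rank M (adjoin M (L : Set Ω)) ≤ Module.rank A L :=
    adjoin_rank_le_of_isAlgebraic_right M L
  have hLB : (L : Set Ω) = (B : Set Ω) := coe_extendScalars hAB
  rw [hLB] at h1
  have h2 : Module.rank A L < Cardinal.aleph0 := Module.rank_lt_aleph0 A L
  have h3 : Module.rank M (adjoin M (B : Set Ω)) < Cardinal.aleph0 := h1.trans_lt h2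
  haveI : Module.Finite M (adjoin M (B : Set Ω)) := Module.rank_lt_aleph0_iff.1 h3
  refine ⟨(Module.finrank_pos (R := M) (M := adjoin M (B : Set Ω))).ne', ?_⟩
  exact Cardinal.toNat_le_toNat h1 h2

end Pool.Agent.Lib_helper20.Noether
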