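import Pool.Agent.Lib_helper20.Noether.Stmts

/-!
# The order of the wreath product
-/

namespace Pool.Agent.Lib_helper20.Noether

namespace CARD

/-- The element of the wreath product with components `f` and `h`. -/
def mk (q : ℕ) {ι : Type} (κ : Type) (f : ι → ZMod q) (h : Equiv.Perm ι) :
    Equiv.Perm ((ι × ZMod q) ⊕ κ) where
  toFun := Sum.map (fun p => (h p.1, p.2 + f p.1)) id
  invFun := Sum.map (fun p => (h.symm p.1, p.2 - f (h.symm p.1))) id
  left_inv := by
    rintro (⟨j, i⟩ | k)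
    · simp
    · simp
  right_inv := by
    rintro (⟨j, i⟩ | k)
    · simp
    · simp

theorem mk_inl (q : ℕ) {ι : Type} (κ : Type) (f : ι → ZMod q) (h : Equiv.Perm ι) (j : ι)
    (i : ZMod q) : mk q κ f h (Sum.inl (j, i)) = Sum.inl (h j, i + f j) := rfl

theorem mk_inr (q : ℕ) {ι : Type} (κ : Type) (f : ι → ZMod q) (h : Equiv.Perm ι) (k : κ) :
    mk q κ f h (Sum.inr k) = Sum.inr k := rfl

/-- The parametrisation of the wreath product. -/
def F (q : ℕ) {ι : Type} (κ : Type) (H : Subgroup (Equiv.Perm ι)) (p : (ι → ZMod q) × H) :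
    wr q κ H :=
  ⟨mk q κ p.1 p.2, ⟨p.2, p.2.2, p.1, fun j i => mk_inl q κ p.1 p.2 j i⟩,
    fun k => mk_inr q κ p.1 p.2 k⟩

theorem F_bij (q : ℕ) {ι : Type} (κ : Type) (H : Subgroup (Equiv.Perm ι)) :
    Function.Bijective (F q κ H) := by
  constructor
  · rintro ⟨f, h⟩ ⟨f', h'⟩ e
    have e1 : mk q κ f h = mk q κ f' h' := congrArg Subtype.val e
    have e2 : ∀ j, h.1 j = h'.1 j ∧ f j = f' j := by
      intro j
      have e3 := congrArg (fun σ : Equiv.Perm ((ι × ZMod q) ⊕ κ) => σ (Sum.inl (j, 0))) e1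
      simp only [mk_inl, zero_add, Sum.inl.injEq, Prod.mk.injEq] at e3
      exact e3
    have e4 : f = f' := funext fun j => (e2 j).2
    have e5 : h = h' := Subtype.ext (Equiv.ext fun j => (e2 j).1)
    rw [e4, e5]
  · rintro ⟨σ, ⟨h, hh, f, hf⟩, hk⟩
    refine ⟨(f, ⟨h, hh⟩), Subtype.ext (Equiv.ext ?_)⟩
    rintro (⟨j, i⟩ | k)
    · exact (hf j i).symm
    · exact (hk k).symm

end CARD

theorem CARD_thm : Stmt_CARD := by
  intro q ι κ _ _ H hq
  rw [← Nat.card_congr (Equiv.ofBijective (CARD.F q κ H) (CARD.F_bij q κ H)), Nat.card_prod,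
    Nat.card_fun, Nat.card_zmod, Nat.card_eq_fintype_card]

end Pool.Agent.Lib_helper20.Noether
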