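import Pool.Agent.Lib_helper20.Noether.Stmts

/-!
# The order of the even subgroup of the wreath product
-/

namespace Pool.Agent.Lib_helper20.Noether

namespace CARDD

/-- The element of the wreath product with components `f` and `h`. -/
def mk {ι : Type} (κ : Type) (f : ι → ZMod 2) (h : Equiv.Perm ι) :
    Equiv.Perm ((ι × ZMod 2) ⊕ κ) where
  toFun := Sum.map (fun p => (h p.1, p.2 + f p.1)) id
  invFun := Sum.map (fun p => (h.symm p.1, p.2 - f (h.symm p.1))) id
  left_inv := by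
    rintro (⟨j, i⟩ | k)
    · simp
    · simp
  right_inv := by
    rintro (⟨j, i⟩ | k)
    · simp
    · simp

theorem mk_inl {ι : Type} (κ : Type) (f : ι → ZMod 2) (h : Equiv.Perm ι) (j : ι)
    (i : ZMod 2) : mk κ f h (Sum.inl (j, i)) = Sum.inl (h j, i + f j) := rfl

theorem mk_inr {ι : Type} (κ : Type) (f : ι → ZMod 2) (h : Equiv.Perm ι) (k : κ) :
    mk κ f h (Sum.inr k) = Sum.inr k := rfl

/-- The functions with sum zero. -/
abbrev Z (ι : Type) [Fintype ι] : Type := {f : ι → ZMod 2 // ∑ j, f j = 0}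

/-- The parametrisation of the even subgroup of the wreath product. -/
def F {ι : Type} [Fintype ι] (κ : Type) (H : Subgroup (Equiv.Perm ι)) (p : Z ι × H) :
    wrD κ H :=
  ⟨mk κ p.1.1 p.2, ⟨p.2, p.2.2, p.1.1, p.1.2, fun j i => mk_inl κ p.1.1 p.2 j i⟩,
    fun k => mk_inr κ p.1.1 p.2 k⟩

theorem F_bij {ι : Type} [Fintype ι] (κ : Type) (H : Subgroup (Equiv.Perm ι)) :
    Function.Bijective (F κ H) := by
  constructor
  · rintro ⟨⟨f, hf⟩, h⟩ ⟨⟨f', hf'⟩, h'⟩ e
    have e1 : mk κ f h = mk κ f' h' := congrArg Subtype.val e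
    have e2 : ∀ j, h.1 j = h'.1 j ∧ f j = f' j := by
      intro j
      have e3 := congrArg (fun σ : Equiv.Perm ((ι × ZMod 2) ⊕ κ) => σ (Sum.inl (j, 0))) e1
      simp only [mk_inl, zero_add, Sum.inl.injEq, Prod.mk.injEq] at e3
      exact e3
    have e4 : f = f' := funext fun j => (e2 j).2
    have e5 : h = h' := Subtype.ext (Equiv.ext fun j => (e2 j).1)
    subst e4
    rw [e5]
  · rintro ⟨σ, ⟨h, hh, f, hf0, hf⟩, hk⟩
    refine ⟨(⟨f, hf0⟩, ⟨h, hh⟩), Subtype.ext (Equiv.ext ?_)⟩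
    rintro (⟨j, i⟩ | k)
    · exact (hf j i).symm
    · exact (hk k).symm

theorem card_Z (ι : Type) [Fintype ι] [Nonempty ι] :
    Nat.card (Z ι) = 2 ^ (Fintype.card ι - 1) := by
  classical
  obtain ⟨j0⟩ := ‹Nonempty ι›
  have hs : ∀ a : ZMod 2, ∑ j, (Pi.single j0 a : ι → ZMod 2) j = a := fun a => by
    rw [Finset.sum_pi_single']
    simp
  let G : Z ι × ZMod 2 → (ι → ZMod 2) := fun p => p.1.1 + Pi.single j0 p.2
  have hG : Function.Bijective G := by
    constructor
    · rintro ⟨⟨f, hf⟩, a⟩ ⟨⟨f', hf'⟩, a'⟩ e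
      have e1 : f + Pi.single j0 a = f' + Pi.single j0 a' := e
      have e2 : a = a' := by
        have e3 := congrArg (fun g : ι → ZMod 2 => ∑ j, g j) e1
        simp only [Pi.add_apply, Finset.sum_add_distrib, hs, hf, hf', zero_add] at e3
        exact e3
      subst e2
      have e4 : f = f' := add_right_cancel e1
      subst e4
      rfl
    · intro g
      refine ⟨(⟨g - Pi.single j0 (∑ j, g j), ?_⟩, ∑ j, g j), ?_⟩
      · simp only [Pi.sub_apply, Finset.sum_sub_distrib, hs, sub_self]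
      · show g - Pi.single j0 (∑ j, g j) + Pi.single j0 (∑ j, g j) = g
        exact sub_add_cancel _ _
  have h1 := Nat.card_congr (Equiv.ofBijective G hG)
  rw [Nat.card_prod, Nat.card_fun, Nat.card_zmod, Nat.card_eq_fintype_card (α := ι)] at h1
  have h2 : 1 ≤ Fintype.card ι := Fintype.card_pos_iff.2 ⟨j0⟩
  have h3 : 2 ^ Fintype.card ι = 2 ^ (Fintype.card ι - 1) * 2 := by
    rw [← pow_succ]
    congr 1
    omega
  rw [h3] at h1
  exact Nat.eq_of_mul_eq_mul_right (by norm_num) h1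

end CARDD

theorem CARDD_thm : Stmt_CARDD := by
  intro ι κ _ _ _ H
  rw [← Nat.card_congr (Equiv.ofBijective (CARDD.F κ H) (CARDD.F_bij κ H)), Nat.card_prod,
    CARDD.card_Z]

end Pool.Agent.Lib_helper20.Noether
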