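import Pool.Agent.Lib_helper20.Noether.Stmts

/-!
# A field of rational functions algebraic over a field generated by as many elements as variables
-/

open MvPolynomial IntermediateField

namespace Pool.Agent.Lib_helper20.Noether

open scoped IntermediateField.algebraAdjoinAdjoin in
theorem COUNT_thm : Stmt_COUNT := by
  intro ι _ y halg
  have h1 : Algebra.IsAlgebraic (Algebra.adjoin ℂ (Set.range y)) (E ι) :=
    (IsFractionRing.comap_isAlgebraic_iff (A := Algebra.adjoin ℂ (Set.range y))
      (K := adjoin ℂ (Set.range y)) (C := E ι)).mpr halg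
  have h2 : Algebra.IsAlgebraic (MvPolynomial ι ℂ) (E ι) :=
    IsLocalization.isAlgebraic _ (nonZeroDivisors (MvPolynomial ι ℂ))
  have hb : IsTranscendenceBasis ℂ (algebraMap (MvPolynomial ι ℂ) (E ι) ∘ X) :=
    (IsTranscendenceBasis.mvPolynomial ι ℂ).algebraMap_comp (A := E ι)
  exact (Algebra.IsAlgebraic.isTranscendenceBasis_of_le_trdeg_of_finite ℂ y
    hb.cardinalMk_eq_trdeg.le).1

end Pool.Agent.Lib_helper20.Noether
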