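import Pool.Agent.Lib_helper20.Noether.Stmts

/-!
# Recognising the field of invariants
-/

open MvPolynomial IntermediateField

namespace Pool.Agent.Lib_helper20.Noether.CRIT

end Pool.Agent.Lib_helper20.Noether.CRIT

namespace Pool.Agent.Lib_helper20.Noether

theorem CRIT_thm (hA : Stmt_ARTIN) : Stmt_CRIT := by
  intro ι _ H M hM h0 hle
  have h1 : relfinrank M (invField H) * relfinrank (invField H) ⊤ = relfinrank M ⊤ :=
    relfinrank_mul_relfinrank hM le_top
  have h2 := hA ι H
  rw [h2] at h1
  have hpos : 0 < Nat.card H := by
    rcases Nat.eq_zero_or_pos (Nat.card H) with h | h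
    · rw [h, mul_zero] at h1
      exact absurd h1.symm h0
    · exact h
  have h3 : relfinrank M (invField H) ≠ 0 := by
    intro h
    rw [h, zero_mul] at h1
    exact h0 h1.symm
  have h4 : relfinrank M (invField H) ≤ 1 := by
    by_contra hc
    have h5 : 2 ≤ relfinrank M (invField H) := by omega
    have h6 : 2 * Nat.card H ≤ relfinrank M (invField H) * Nat.card H :=
      Nat.mul_le_mul_right _ h5
    omega
  have h7 : relfinrank M (invField H) = 1 := by omega
  exact le_antisymm hM (relfinrank_eq_one_iff.mp h7)

end Pool.Agent.Lib_helper20.Noether
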