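import Mathlib

/-!
# Fields of invariants of permutation groups: definitions
-/

open MvPolynomial IntermediateField

namespace Pool.Agent.Lib_helper20.Noether

/-- The field `ℂ(x_i : i ∈ ι)` of rational functions. -/
abbrev E (ι : Type) : Type := FractionRing (MvPolynomial ι ℂ)

/-- The variable `x_i` in `ℂ(x_i : i ∈ ι)`. -/
noncomputable def x {ι : Type} (i : ι) : E ι := algebraMap (MvPolynomial ι ℂ) (E ι) (X i)

/-- The automorphism `f ↦ f(x_{σ i} : i ∈ ι)` of `ℂ(x_i : i ∈ ι)` over `ℂ`. -/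
noncomputable def perm {ι : Type} (σ : Equiv.Perm ι) : E ι ≃ₐ[ℂ] E ι :=
  IsFractionRing.algEquivOfAlgEquiv (renameEquiv ℂ σ)

/-- The field of invariants `ℂ(x_i : i ∈ ι)^H`. -/
noncomputable def invField {ι : Type} (H : Subgroup (Equiv.Perm ι)) :
    IntermediateField ℂ (E ι) where
  carrier := {f | ∀ σ ∈ H, perm σ f = f}
  mul_mem' := by
    intro a b ha hb σ hσ
    rw [map_mul, ha σ hσ, hb σ hσ]
  add_mem' := by
    intro a b ha hb σ hσ
    rw [map_add, ha σ hσ, hb σ hσ]
  algebraMap_mem' := by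
    intro r σ hσ
    exact (perm σ).commutes r
  inv_mem' := by
    intro a ha σ hσ
    rw [map_inv₀, ha σ hσ]

/-- `L` is purely transcendental over `ℂ`. -/
def PurelyTranscendental {ι : Type} (L : IntermediateField ℂ (E ι)) : Prop :=
  ∃ (m : ℕ) (y : Fin m → E ι), AlgebraicIndependent ℂ y ∧ L = adjoin ℂ (Set.range y)

end Pool.Agent.Lib_helper20.Noether
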