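import Pool.Agent.Lib_helper20.Noether.Stmts

/-!
# EMB: equivariant embeddings of fields of rational functions
-/

open MvPolynomial IntermediateField

namespace Pool.Agent.Lib_helper20.Noether

theorem EMB_thm : Stmt_EMB := by
  intro ι κ g hg
  have hinj : Function.Injective (aeval g : MvPolynomial ι ℂ →ₐ[ℂ] MvPolynomial κ ℂ) := hg
  have hinj2 : Function.Injective ((IsScalarTower.toAlgHom ℂ (MvPolynomial κ ℂ) (E κ)).comp
      (aeval g : MvPolynomial ι ℂ →ₐ[ℂ] MvPolynomial κ ℂ)) := by
    have h1 : Function.Injective (algebraMap (MvPolynomial κ ℂ) (E κ)) :=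
      IsFractionRing.injective _ _
    exact h1.comp hinj
  obtain ⟨φ, hφ⟩ : ∃ φ : E ι →ₐ[ℂ] E κ, ∀ f : MvPolynomial ι ℂ,
      φ (algebraMap (MvPolynomial ι ℂ) (E ι) f)
        = algebraMap (MvPolynomial κ ℂ) (E κ) (aeval g f) := by
    refine ⟨IsFractionRing.liftAlgHom (K := E ι) hinj2, fun f => ?_⟩
    rw [IsFractionRing.liftAlgHom_apply]
    exact IsFractionRing.lift_algebraMap hinj2 f
  refine ⟨φ, fun j => ?_, fun h τ hτ => ?_⟩
  · rw [x, hφ, aeval_X]
  · have key : ((perm τ : E κ ≃ₐ[ℂ] E κ) : E κ →ₐ[ℂ] E κ).comp φ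
        = φ.comp ((perm h : E ι ≃ₐ[ℂ] E ι) : E ι →ₐ[ℂ] E ι) := by
      have hpoly : ∀ f : MvPolynomial ι ℂ,
          perm τ (φ (algebraMap (MvPolynomial ι ℂ) (E ι) f))
            = φ (perm h (algebraMap (MvPolynomial ι ℂ) (E ι) f)) := by
        intro f
        have e1 : ∀ (α : Type) (σ : Equiv.Perm α) (p : MvPolynomial α ℂ),
            perm σ (algebraMap (MvPolynomial α ℂ) (E α) p)
              = algebraMap (MvPolynomial α ℂ) (E α) (rename σ p) := by
          intro α σ p
          exact IsFractionRing.algEquivOfAlgEquiv_algebraMap (renameEquiv ℂ σ) p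
        rw [hφ, e1, e1, hφ]
        congr 1
        have e2 : ((rename τ).comp (aeval g) : MvPolynomial ι ℂ →ₐ[ℂ] MvPolynomial κ ℂ)
            = (aeval g).comp (rename h) := by
          apply MvPolynomial.algHom_ext
          intro j
          simp only [AlgHom.comp_apply, aeval_X, rename_X]
          exact hτ j
        exact DFunLike.congr_fun e2 f
      apply IsLocalization.algHom_ext (nonZeroDivisors (MvPolynomial ι ℂ))
      ext f
      exact hpoly (X f)
    intro f
    exact DFunLike.congr_fun key f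

end Pool.Agent.Lib_helper20.Noether
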