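import Pool.Agent.Lib_helper20.Noether.Stmts

/-!
# Fields of invariants of Sylow subgroups of alternating groups: the theorem
-/

open MvPolynomial IntermediateField
open scoped Pointwise

namespace Pool.Agent.Lib_helper20.Noether

namespace FINAL

theorem mem_inv {ι : Type} {H : Subgroup (Equiv.Perm ι)} {f : E ι} :
    f ∈ invField H ↔ ∀ σ ∈ H, perm σ f = f := Iff.rfl

theorem inv_anti {ι : Type} {H K : Subgroup (Equiv.Perm ι)} (h : H ≤ K) :
    invField K ≤ invField H := by
  intro f hf
  rw [mem_inv] at hf ⊢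
  exact fun σ hσ => hf σ (h hσ)

/-- Conjugation by `e` is the transport of permutations along `e`. -/
theorem conj_map {ι : Type} (g : Equiv.Perm ι) (H : Subgroup (Equiv.Perm ι)) :
    MulAut.conj g • H = H.map (g.permCongrHom : Equiv.Perm ι →* Equiv.Perm ι) := by
  ext σ
  rw [Subgroup.mem_map]
  constructor
  · intro h
    rw [Subgroup.mem_smul_pointwise_iff_exists] at h
    obtain ⟨s, hs, rfl⟩ := h
    refine ⟨s, hs, ?_⟩
    ext i
    simp [Equiv.permCongrHom]
  · rintro ⟨s, hs, rfl⟩
    rw [Subgroup.mem_smul_pointwise_iff_exists]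
    refine ⟨s, hs, ?_⟩
    ext i
    simp [Equiv.permCongrHom]

/-- Conjugate subgroups. -/
theorem rat_conj (hT : Stmt_TRANS) {n : ℕ} {P Q : Subgroup (Equiv.Perm (Fin n))}
    (g : Equiv.Perm (Fin n)) (h : MulAut.conj g • P = Q) (hP : Rat P) : Rat Q := by
  rw [← h, conj_map]
  exact (hT _ _ g P).1 hP

/-- Order of the image in the symmetric group. -/
theorem card_map {n : ℕ} (P : Subgroup (alternatingGroup (Fin n))) :
    Nat.card (P.map (alternatingGroup (Fin n)).subtype) = Nat.card P :=
  Nat.card_congr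
    (P.equivMapOfInjective _ (alternatingGroup (Fin n)).subtype_injective).toEquiv.symm

theorem two_mul_card {n : ℕ} (hn : 2 ≤ n) :
    2 * Nat.card (alternatingGroup (Fin n)) = n.factorial := by
  have : Nontrivial (Fin n) := Fin.nontrivial_iff_two_le.mpr hn
  rw [two_mul_nat_card_alternatingGroup, Nat.card_perm, Nat.card_eq_fintype_card, Fintype.card_fin]

theorem card_perm (n : ℕ) : Nat.card (Equiv.Perm (Fin n)) = n.factorial := by
  rw [Nat.card_perm, Nat.card_eq_fintype_card, Fintype.card_fin]

/-- The case in which the Sylow subgroups of the alternating group are Sylow subgroups of the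
symmetric group. -/
theorem rat_one (hT : Stmt_TRANS) (hS : Stmt_SYL) (n p : ℕ) (hp : p.Prime)
    (P : Sylow p (alternatingGroup (Fin n))) (h : p ≠ 2 ∨ n < 2) :
    Rat ((P : Subgroup (alternatingGroup (Fin n))).map (alternatingGroup (Fin n)).subtype) := by
  have : Fact p.Prime := ⟨hp⟩
  obtain ⟨Q, hQ, hQR⟩ := (hS p n hp).1
  have hc : Nat.card ((P : Subgroup (alternatingGroup (Fin n))).map
      (alternatingGroup (Fin n)).subtype) = p ^ (Nat.card (Equiv.Perm (Fin n))).factorization p := by
    rw [card_map, Sylow.card_eq_multiplicity, card_perm]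
    congr 1
    rcases lt_or_ge n 2 with hn | hn
    · have h1 : n.factorial = 1 := by
        interval_cases n <;> rfl
      have h2 : Nat.card (alternatingGroup (Fin n)) = 1 := by
        have h3 := Subgroup.card_subgroup_dvd_card (alternatingGroup (Fin n))
        rw [card_perm, h1, Nat.dvd_one] at h3
        exact h3
      rw [h1, h2]
    · have hp2 : p ≠ 2 := by
        rcases h with h | h
        · exact h
        · omega
      have h0 : Nat.card (alternatingGroup (Fin n)) ≠ 0 := Nat.card_pos.ne'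
      rw [← two_mul_card hn, Nat.factorization_mul two_ne_zero h0, Finsupp.add_apply,
        Nat.Prime.factorization Nat.prime_two, Finsupp.single_eq_of_ne (by simpa using hp2),
        zero_add]
  have hcQ : Nat.card Q = p ^ (Nat.card (Equiv.Perm (Fin n))).factorization p := by
    rw [hQ, card_perm]
  obtain ⟨g, hg⟩ := MulAction.exists_smul_eq (Equiv.Perm (Fin n)) (Sylow.ofCard Q hcQ)
    (Sylow.ofCard _ hc)
  have h2 := congrArg (fun S : Sylow p (Equiv.Perm (Fin n)) =>
    (S : Subgroup (Equiv.Perm (Fin n)))) hg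
  simp only [Sylow.coe_subgroup_smul] at h2
  exact rat_conj hT g h2 hQR

/-- The Sylow 2-subgroups of the alternating group. -/
theorem rat_two (hT : Stmt_TRANS) (hS : Stmt_SYL) (n : ℕ) (hn : 2 ≤ n)
    (P : Sylow 2 (alternatingGroup (Fin n))) :
    Rat ((P : Subgroup (alternatingGroup (Fin n))).map (alternatingGroup (Fin n)).subtype) := by
  obtain ⟨Q, hQA, hQ, hQR⟩ := (hS 2 n Nat.prime_two).2 hn
  have h0 : Nat.card (alternatingGroup (Fin n)) ≠ 0 := Nat.card_pos.ne'
  have hc : Nat.card (Q.subgroupOf (alternatingGroup (Fin n))) =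
      2 ^ (Nat.card (alternatingGroup (Fin n))).factorization 2 := by
    rw [Nat.card_congr (Subgroup.subgroupOfEquivOfLe hQA).toEquiv, hQ, ← two_mul_card hn,
      Nat.factorization_mul two_ne_zero h0, Finsupp.add_apply,
      Nat.Prime.factorization Nat.prime_two, Finsupp.single_eq_same, Nat.add_sub_cancel_left]
  obtain ⟨g, hg⟩ := MulAction.exists_smul_eq (alternatingGroup (Fin n)) (Sylow.ofCard _ hc) P
  have h2 := congrArg (fun S : Sylow 2 (alternatingGroup (Fin n)) =>
    ((S : Subgroup (alternatingGroup (Fin n))).map (alternatingGroup (Fin n)).subtype)) hg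
  simp only [Sylow.coe_subgroup_smul] at h2
  refine rat_conj hT (g : Equiv.Perm (Fin n)) ?_ hQR
  rw [← h2]
  ext σ
  rw [Subgroup.mem_smul_pointwise_iff_exists, Subgroup.mem_map]
  constructor
  · rintro ⟨s, hs, rfl⟩
    refine ⟨g * ⟨s, hQA hs⟩ * g⁻¹, ?_, ?_⟩
    · rw [Subgroup.mem_smul_pointwise_iff_exists]
      exact ⟨⟨s, hQA hs⟩, Subgroup.mem_subgroupOf.mpr hs, rfl⟩
    · simp [MulAut.conj_apply]
  · rintro ⟨t, ht, rfl⟩
    rw [Subgroup.mem_smul_pointwise_iff_exists] at ht
    obtain ⟨s, hs, rfl⟩ := ht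
    refine ⟨s, Subgroup.mem_subgroupOf.mp hs, ?_⟩
    simp [MulAut.conj_apply]

theorem rat_all (hT : Stmt_TRANS) (hS : Stmt_SYL) (n p : ℕ) (hp : p.Prime)
    (P : Sylow p (alternatingGroup (Fin n))) :
    Rat ((P : Subgroup (alternatingGroup (Fin n))).map (alternatingGroup (Fin n)).subtype) := by
  by_cases h : p ≠ 2 ∨ n < 2
  · exact rat_one hT hS n p hp P h
  · push Not at h
    obtain ⟨rfl, h2⟩ := h
    exact rat_two hT hS n h2 P

/-- A rational field of invariants is purely transcendental. -/
theorem pure (hA : Stmt_ARTIN) (hC : Stmt_COUNT) {n : ℕ} (H : Subgroup (Equiv.Perm (Fin n)))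
    (h : Rat H) : PurelyTranscendental (invField H) := by
  obtain ⟨y, hy⟩ := h
  refine ⟨n, y, hC (Fin n) y ?_, hy.symm⟩
  have h1 := hA (Fin n) H
  rw [relfinrank_top_right] at h1
  have h2 : 0 < Module.finrank (invField H) (E (Fin n)) := by
    rw [h1]
    exact Nat.card_pos
  have : FiniteDimensional (invField H) (E (Fin n)) := Module.finite_of_finrank_pos h2
  have h3 : Algebra.IsAlgebraic (invField H) (E (Fin n)) := Algebra.IsAlgebraic.of_finite _ _
  rw [hy]
  exact h3

end FINAL

open FINAL in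
theorem FINAL_thm (hA : Stmt_ARTIN) (hC : Stmt_COUNT) (hT : Stmt_TRANS) (hS : Stmt_SYL) :
    Stmt_FINAL := by
  intro n p hp P
  have : Fact p.Prime := ⟨hp⟩
  have hle : (P : Subgroup (alternatingGroup (Fin n))).map (alternatingGroup (Fin n)).subtype ≤
      alternatingGroup (Fin n) := Subgroup.map_subtype_le _
  refine ⟨FINAL.pure hA hC _ (rat_all hT hS n p hp P), inv_anti hle, _, rfl, ?_, ?_⟩
  all_goals
    have h1 := relfinrank_mul_relfinrank (inv_anti hle) (le_top (a := invField
      ((P : Subgroup (alternatingGroup (Fin n))).map (alternatingGroup (Fin n)).subtype)))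
    rw [hA, hA, card_map, Sylow.card_eq_multiplicity] at h1
    have h0 : Nat.card (alternatingGroup (Fin n)) ≠ 0 := Nat.card_pos.ne'
  · intro h2
    rw [h2, zero_mul] at h1
    exact h0 h1.symm
  · rintro ⟨c, hc⟩
    refine Nat.pow_succ_factorization_not_dvd h0 hp ⟨c, ?_⟩
    conv_lhs => rw [← h1]
    rw [hc, pow_succ]
    ring

end Pool.Agent.Lib_helper20.Noether
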