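import Pool.Agent.Lib_helper20.Noether.Stmts

/-!
# INDEP: three families of algebraically independent polynomials
-/

open MvPolynomial IntermediateField

namespace Pool.Agent.Lib_helper20.Noether

namespace INDEP

/-- The squares of the variables are algebraically independent. -/
theorem indep_sq (ι : Type) : AlgebraicIndependent ℂ
    (fun j : ι => (X j : MvPolynomial ι ℂ) ^ 2) := by
  have h : (aeval (fun j : ι => (X j : MvPolynomial ι ℂ) ^ 2) :
      MvPolynomial ι ℂ →ₐ[ℂ] MvPolynomial ι ℂ) = expand 2 := by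
    apply MvPolynomial.algHom_ext
    intro i
    rw [aeval_X, expand_X]
  have h2 : Function.Injective (aeval (fun j : ι => (X j : MvPolynomial ι ℂ) ^ 2) :
      MvPolynomial ι ℂ →ₐ[ℂ] MvPolynomial ι ℂ) := by
    rw [h]
    exact expand_injective (by norm_num)
  exact h2

end INDEP

theorem INDEP_thm : Stmt_INDEP := by
  intro ι κ q hq _
  refine ⟨?_, ?_, ?_⟩
  · let ψ : MvPolynomial ((ι × ZMod q) ⊕ κ) ℂ →ₐ[ℂ] MvPolynomial ι ℂ :=
      aeval (Sum.elim (fun s : ι × ZMod q => if s.2 = 0 then X s.1 else 0) (fun _ => 0))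
    refine AlgebraicIndependent.of_comp ψ ?_
    have h : (ψ ∘ fun j : ι => ∑ i : ZMod q,
        (X (Sum.inl (j, i)) : MvPolynomial ((ι × ZMod q) ⊕ κ) ℂ)) = X := by
      funext j
      simp only [Function.comp_apply, map_sum]
      rw [Finset.sum_eq_single (0 : ZMod q)]
      · simp [ψ]
      · intro b _ hb
        simp [ψ, hb]
      · intro h0
        exact absurd (Finset.mem_univ _) h0
    rw [h]
    exact MvPolynomial.algebraicIndependent_X ι ℂ
  · let ψ : MvPolynomial ((ι × ZMod 2) ⊕ κ) ℂ →ₐ[ℂ] MvPolynomial ι ℂ :=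
      aeval (Sum.elim (fun s : ι × ZMod 2 => if s.2 = 0 then X s.1 else 1) (fun _ => 0))
    refine AlgebraicIndependent.of_comp ψ ?_
    have h : (ψ ∘ fun j : ι =>
        (X (Sum.inl (j, 0)) * X (Sum.inl (j, 1)) : MvPolynomial ((ι × ZMod 2) ⊕ κ) ℂ)) = X := by
      funext j
      simp [ψ]
    rw [h]
    exact MvPolynomial.algebraicIndependent_X ι ℂ
  · let ψ : MvPolynomial ((ι × ZMod 2) ⊕ κ) ℂ →ₐ[ℂ] MvPolynomial ι ℂ :=
      aeval (Sum.elim (fun s : ι × ZMod 2 => if s.2 = 0 then X s.1 else 0) (fun _ => 0))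
    refine AlgebraicIndependent.of_comp ψ ?_
    have h : (ψ ∘ fun j : ι =>
        ((X (Sum.inl (j, 0)) - X (Sum.inl (j, 1))) ^ 2 : MvPolynomial ((ι × ZMod 2) ⊕ κ) ℂ)) =
        fun j => X j ^ 2 := by
      funext j
      simp [ψ]
    rw [h]
    exact INDEP.indep_sq ι

end Pool.Agent.Lib_helper20.Noether
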