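import Pool.Agent.Lib_helper20.Noether.Stmts

/-!
# PUSH: the degree of the field generated by the images of all variables
-/

open MvPolynomial IntermediateField

namespace Pool.Agent.Lib_helper20.Noether.PUSH

/-- The variables generate the field of rational functions. -/
theorem adjoin_range_x (ι : Type) : adjoin ℂ (Set.range (x : ι → E ι)) = ⊤ := by
  rw [eq_top_iff]
  intro f _
  have hpoly : ∀ p : MvPolynomial ι ℂ, algebraMap (MvPolynomial ι ℂ) (E ι) p ∈
      adjoin ℂ (Set.range (x : ι → E ι)) := by
    intro p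
    induction p using MvPolynomial.induction_on with
    | C a =>
      have h : algebraMap (MvPolynomial ι ℂ) (E ι) (C a) = algebraMap ℂ (E ι) a := by
        rw [IsScalarTower.algebraMap_apply ℂ (MvPolynomial ι ℂ) (E ι)]
        rfl
      rw [h]
      exact (adjoin ℂ (Set.range (x : ι → E ι))).algebraMap_mem a
    | add p q hp hq =>
      rw [map_add]
      exact add_mem hp hq
    | mul_X p i hp =>
      rw [map_mul]
      exact mul_mem hp (subset_adjoin ℂ _ ⟨i, rfl⟩)
  obtain ⟨a, b, _, rfl⟩ := IsFractionRing.div_surjective (A := MvPolynomial ι ℂ) f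
  exact div_mem (hpoly a) (hpoly b)

/-- The image of the whole field is generated by the images of the variables. -/
theorem map_top_eq {ι κ : Type} (φ : E ι →ₐ[ℂ] E κ) :
    (⊤ : IntermediateField ℂ (E ι)).map φ = adjoin ℂ (Set.range fun j => φ (x j)) := by
  rw [← adjoin_range_x ι, adjoin_map, ← Set.range_comp]
  rfl

end Pool.Agent.Lib_helper20.Noether.PUSH

namespace Pool.Agent.Lib_helper20.Noether

theorem PUSH_thm (hB : Stmt_BASE) (hA : Stmt_ARTIN) : Stmt_PUSH := by
  intro ι κ _ H φ M hM
  have h1 : relfinrank ((invField H).map φ) ((⊤ : IntermediateField ℂ (E ι)).map φ) =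
      Nat.card H := by
    rw [relfinrank_map_map, hA ι H]
  have h2 : (invField H).map φ ≤ (⊤ : IntermediateField ℂ (E ι)).map φ :=
    map_mono φ le_top
  have h3 : (invField H).map φ ≤ M := by
    rintro _ ⟨f, hf, rfl⟩
    exact hM f hf
  have hne : relfinrank ((invField H).map φ) ((⊤ : IntermediateField ℂ (E ι)).map φ) ≠ 0 := by
    rw [h1]
    exact Nat.card_pos.ne'
  have h4 := hB ℂ (E κ) ((invField H).map φ) ((⊤ : IntermediateField ℂ (E ι)).map φ) M h2 h3 hne
  rw [h1, PUSH.map_top_eq] at h4
  exact h4

end Pool.Agent.Lib_helper20.Noether
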