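import Pool.Agent.Lib_helper20.Noether.Stmts

/-!
# RADI: adjoining finitely many roots
-/

open MvPolynomial IntermediateField

namespace Pool.Agent.Lib_helper20.Noether

namespace RADI

open Polynomial in
/-- adjoining one root -/
lemma step {K Ω : Type} [Field K] [Field Ω] [Algebra K Ω] (M : IntermediateField K Ω) (b : Ω)
    (q : ℕ) (hq : 0 < q) (hb : b ^ q ∈ M) :
    relfinrank M (M ⊔ adjoin K {b}) ≠ 0 ∧ relfinrank M (M ⊔ adjoin K {b}) ≤ q := by
  have hle : M ≤ M ⊔ adjoin K {b} := le_sup_left
  have hE : extendScalars hle = adjoin M {b} := by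
    apply IntermediateField.restrictScalars_injective K
    rw [extendScalars_restrictScalars, restrictScalars_adjoin_eq_sup]
  have hroot : Polynomial.aeval b ((Polynomial.X : Polynomial M) ^ q -
      Polynomial.C (⟨b ^ q, hb⟩ : M)) = 0 := by
    rw [map_sub, map_pow, Polynomial.aeval_X, Polynomial.aeval_C]
    exact sub_self _
  have hmon : ((Polynomial.X : Polynomial M) ^ q - Polynomial.C (⟨b ^ q, hb⟩ : M)).Monic :=
    Polynomial.monic_X_pow_sub_C _ hq.ne'
  have hint : IsIntegral M b := ⟨_, hmon, hroot⟩
  have hfr : relfinrank M (M ⊔ adjoin K {b}) = (minpoly M b).natDegree := by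
    rw [relfinrank_eq_finrank_of_le hle, hE, adjoin.finrank hint]
  rw [hfr]
  constructor
  · exact (minpoly.natDegree_pos hint).ne'
  · calc (minpoly M b).natDegree
        ≤ ((Polynomial.X : Polynomial M) ^ q - Polynomial.C (⟨b ^ q, hb⟩ : M)).natDegree :=
          Polynomial.natDegree_le_natDegree (minpoly.min M b hmon hroot)
      _ = q := Polynomial.natDegree_X_pow_sub_C

end RADI

/-- RADI: adjoining finitely many roots. -/
theorem RADI_thm : Stmt_RADI := by
  classical
  intro K Ω _ _ _ M ι J v q hq
  induction J using Finset.induction_on with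
  | empty =>
    intro _
    have e : M ⊔ adjoin K (v '' ((∅ : Finset ι) : Set ι)) = M := by
      rw [Finset.coe_empty, Set.image_empty, adjoin_empty, sup_bot_eq]
    rw [e, relfinrank_self]
    simp
  | insert j J hj ih =>
    intro hv
    obtain ⟨h1, h2⟩ := ih (fun i hi => hv i (Finset.mem_insert_of_mem hi))
    set M' := M ⊔ adjoin K (v '' (J : Set ι)) with hM'
    have hb : v j ^ q ∈ M' :=
      (le_sup_left : M ≤ M') (hv j (Finset.mem_insert_self j J))
    obtain ⟨s1, s2⟩ := RADI.step M' (v j) q hq hb
    have e : M ⊔ adjoin K (v '' ((insert j J : Finset ι) : Set ι)) = M' ⊔ adjoin K {v j} := by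
      rw [hM', Finset.coe_insert, Set.image_insert_eq, Set.insert_eq, adjoin_union, sup_assoc,
        sup_comm (adjoin K {v j})]
    rw [e]
    have hmul : relfinrank M M' * relfinrank M' (M' ⊔ adjoin K {v j}) =
        relfinrank M (M' ⊔ adjoin K {v j}) :=
      relfinrank_mul_relfinrank le_sup_left le_sup_left
    rw [← hmul, Finset.card_insert_of_notMem hj, pow_succ]
    exact ⟨mul_ne_zero h1 s1, Nat.mul_le_mul h2 s2⟩

end Pool.Agent.Lib_helper20.Noether
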