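import Pool.Agent.Lib_helper20.Noether.Stmts

/-!
# The even subgroup of the wreath product with `ℤ/2` consists of even permutations
-/

namespace Pool.Agent.Lib_helper20.Noether

open Equiv Equiv.Perm

namespace SIGN

lemma prod_sign {ι : Type} (s : Finset ι) (f : ι → ZMod 2) :
    ∏ j ∈ s, sign (Equiv.addRight (f j) : Equiv.Perm (ZMod 2)) =
      sign (Equiv.addRight (∑ j ∈ s, f j) : Equiv.Perm (ZMod 2)) := by
  classical
  induction s using Finset.induction_on with
  | empty =>
    have h : (Equiv.addRight (0 : ZMod 2) : Equiv.Perm (ZMod 2)) = 1 := by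
      ext x; simp
    rw [Finset.prod_empty, Finset.sum_empty, h, Equiv.Perm.sign_one]
  | insert a s ha ih =>
    rw [Finset.prod_insert ha, Finset.sum_insert ha, ih, ← Equiv.Perm.sign_mul]
    congr 1
    ext x
    simp [Equiv.Perm.mul_apply]
    ring

end SIGN

theorem SIGN_thm : Stmt_SIGN := by
  intro ι κ _ _ _ _ H σ hσ
  obtain ⟨⟨h, hh, f, hf0, hf⟩, hk⟩ := hσ
  rw [Equiv.Perm.mem_alternatingGroup]
  have key : σ = Equiv.Perm.sumCongr
      ((Equiv.prodCongrLeft (fun _ : ZMod 2 => h) : Equiv.Perm (ι × ZMod 2)) *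
        (Equiv.prodCongrRight (fun j => (Equiv.addRight (f j) : Equiv.Perm (ZMod 2)))))
      (1 : Equiv.Perm κ) := by
    ext x
    rcases x with ⟨j, i⟩ | k
    · rw [hf]
      simp [Equiv.Perm.mul_apply]
    · rw [hk]
      simp
  rw [key, sign_sumCongr, Equiv.Perm.sign_one, mul_one, Equiv.Perm.sign_mul, sign_prodCongrLeft, sign_prodCongrRight]
  have h1 : ∏ _k : ZMod 2, sign h = 1 := by
    rw [Finset.prod_const, Finset.card_univ, ZMod.card, sq]
    exact Int.units_mul_self _
  rw [h1, one_mul, SIGN.prod_sign, hf0]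
  have h2 : (Equiv.addRight (0 : ZMod 2) : Equiv.Perm (ZMod 2)) = 1 := by
    ext x; simp
  rw [h2, Equiv.Perm.sign_one]

end Pool.Agent.Lib_helper20.Noether
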