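import Pool.Agent.Lib_helper20.Noether.Stmts

set_option linter.unusedSectionVars false

/-!
# Module STEPD: the even subgroup of a wreath product with `ℤ/2`
-/

open MvPolynomial IntermediateField

namespace Pool.Agent.Lib_helper20.Noether

namespace STEPD

theorem perm_x {ι : Type} (σ : Equiv.Perm ι) (i : ι) : perm σ (x i) = x (σ i) := by
  rw [perm, x, IsFractionRing.algEquivOfAlgEquiv_algebraMap]
  rw [renameEquiv_apply, rename_X]
  rfl

theorem adjoin_x_eq_top (ι : Type) : adjoin ℂ (Set.range (x : ι → E ι)) = ⊤ := by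
  rw [eq_top_iff]
  intro f _
  obtain ⟨a, b, hb, rfl⟩ := IsFractionRing.div_surjective (A := MvPolynomial ι ℂ) f
  have key : ∀ p : MvPolynomial ι ℂ,
      algebraMap (MvPolynomial ι ℂ) (E ι) p ∈ adjoin ℂ (Set.range (x : ι → E ι)) := by
    intro p
    induction p using MvPolynomial.induction_on with
    | C a =>
      have h : algebraMap (MvPolynomial ι ℂ) (E ι) (C a) = algebraMap ℂ (E ι) a := by
        rw [IsScalarTower.algebraMap_apply ℂ (MvPolynomial ι ℂ) (E ι)]
        rfl
      rw [h]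
      exact IntermediateField.algebraMap_mem _ a
    | add p q hp hq =>
      rw [map_add]
      exact add_mem hp hq
    | mul_X p i hp =>
      rw [map_mul]
      exact mul_mem hp (subset_adjoin ℂ _ ⟨i, rfl⟩)
  exact div_mem (key a) (key b)

theorem x_injective (ι : Type) : Function.Injective (x : ι → E ι) := by
  intro i j h
  have h1 : (X i : MvPolynomial ι ℂ) = X j :=
    IsFractionRing.injective (MvPolynomial ι ℂ) (E ι) h
  exact MvPolynomial.X_injective h1

theorem zmod2_cases (a : ZMod 2) : a = 0 ∨ a = 1 := by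
  revert a
  decide

end STEPD

open STEPD

open Classical in
/-- STEPD. -/
theorem STEPD_thm (hP : Stmt_PUSH) (hR : Stmt_RADI) (hV : Stmt_VAND) (hC : Stmt_CRIT)
    (hE : Stmt_EMB) (hI : Stmt_INDEP) (hK : Stmt_CARDD) : Stmt_STEPD := by
  intro ι κ _ _ H hH
  obtain ⟨gen, hgen, i0, hi0⟩ := hH
  set Λ : Type := (ι × ZMod 2) ⊕ κ with hΛ
  -- the elements `v`, `W`
  set v : ι → E Λ := fun j => x (Sum.inl (j, 0)) - x (Sum.inl (j, 1)) with hv
  set W : ι → E Λ := fun j => x (Sum.inl (j, 0)) + x (Sum.inl (j, 1)) with hW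
  have hx_inj := x_injective Λ
  have hv0 : ∀ j, v j ≠ 0 := by
    intro j h
    have h1 : (x (Sum.inl (j, 0)) : E Λ) = x (Sum.inl (j, 1)) := sub_eq_zero.mp h
    have h2 := hx_inj h1
    rw [Sum.inl.injEq, Prod.mk.injEq] at h2
    exact absurd h2.2 (by decide)
  obtain ⟨φ, hφ, hφe⟩ := hE ι Λ
    (fun j => ((X (Sum.inl (j, 0)) - X (Sum.inl (j, 1))) ^ 2 : MvPolynomial Λ ℂ))
    (hI ι κ 2 le_rfl).2.2
  have hφx : ∀ j, φ (x j) = v j ^ 2 := by
    intro j
    rw [hφ, map_pow, map_sub]
    rfl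
  -- action of the group
  have hact : ∀ σ ∈ wrD κ H, ∃ h ∈ H, ∃ f : ι → ZMod 2, ∑ j, f j = 0 ∧
      (∀ j, perm σ (v j) = (-1) ^ (f j).val * v (h j)) ∧ (∀ j, perm σ (W j) = W (h j)) ∧
      (∀ k, σ (Sum.inr k) = Sum.inr k) ∧ ∀ F, perm σ (φ F) = φ (perm h F) := by
    rintro σ ⟨⟨h, hh, f, hf0, hf⟩, hk⟩
    refine ⟨h, hh, f, hf0, ?_, ?_, hk, ?_⟩
    · intro j
      simp only [hv, map_sub, perm_x, hf]
      rcases zmod2_cases (f j) with h0 | h1
      · rw [h0]
        simp
      · rw [h1]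
        have e1 : (1 + 1 : ZMod 2) = 0 := by decide
        have e2 : (1 : ZMod 2).val = 1 := by decide
        rw [e1, e2]
        simp
    · intro j
      simp only [hW, map_add, perm_x, hf]
      rcases zmod2_cases (f j) with h0 | h1
      · rw [h0]
        simp
      · rw [h1]
        have e1 : (1 + 1 : ZMod 2) = 0 := by decide
        rw [e1, zero_add, add_comm]
    · apply hφe
      intro j
      simp only [map_pow, map_sub, rename_X, hf]
      rcases zmod2_cases (f j) with h0 | h1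
      · rw [h0]
        simp
      · rw [h1]
        have e1 : (1 + 1 : ZMod 2) = 0 := by decide
        rw [e1, zero_add]
        ring
  -- generators
  set e := Fintype.equivFin ι with he
  set d : E Λ := ∏ j, v j with hd
  set t : ℕ → E Λ := fun n => ∑ j, (v j ^ 2) ^ n * W j with ht
  set y : Λ → E Λ := Sum.elim
    (fun p => if p.2 = 0 then (if p.1 = i0 then d else φ (gen p.1)) else t (e p.1 : ℕ))
    (fun k => x (Sum.inr k)) with hy
  set M : IntermediateField ℂ (E Λ) := adjoin ℂ (Set.range y) with hM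
  have hyM : ∀ l, y l ∈ M := fun l => subset_adjoin ℂ _ ⟨l, rfl⟩
  have hdM : d ∈ M := by
    have h1 := hyM (Sum.inl (i0, 0))
    simpa [hy] using h1
  have hgM : ∀ j, j ≠ i0 → φ (gen j) ∈ M := by
    intro j hj
    have h1 := hyM (Sum.inl (j, 0))
    simpa [hy, hj] using h1
  have htM : ∀ n < Fintype.card ι, t n ∈ M := by
    intro n hn
    have h1 := hyM (Sum.inl (e.symm ⟨n, hn⟩, 1))
    simpa [hy] using h1
  have hxM : ∀ k, (x (Sum.inr k) : E Λ) ∈ M := fun k => hyM (Sum.inr k)
  have hd2 : φ (∏ j, x j) = d ^ 2 := by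
    rw [map_prod, hd, ← Finset.prod_pow]
    exact Finset.prod_congr rfl fun j _ => hφx j
  -- `M` consists of invariants
  have hMle : M ≤ invField (wrD κ H) := by
    rw [hM, adjoin_le_iff]
    rintro _ ⟨l, rfl⟩
    intro σ hσ
    obtain ⟨h, hh, f, hf0, hσv, hσW, hσk, hσφ⟩ := hact σ hσ
    rcases l with ⟨j, a⟩ | k
    · have hyl : y (Sum.inl (j, a)) =
          if a = 0 then (if j = i0 then d else φ (gen j)) else t (e j : ℕ) := rfl
      rw [hyl]
      split_ifs with ha hj
      · rw [hd, map_prod]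
        simp only [hσv]
        rw [Finset.prod_mul_distrib, Finset.prod_pow_eq_pow_sum, Equiv.prod_comp h v]
        have h2 : Even (∑ j, (f j).val) := by
          rw [← ZMod.natCast_eq_zero_iff_even]
          push_cast
          simpa using hf0
        rw [h2.neg_one_pow, one_mul]
      · rw [hσφ]
        congr 1
        have h3 : gen j ∈ invField H := by
          rw [← hgen]
          exact subset_adjoin ℂ _ ⟨j, rfl⟩
        exact h3 h hh
      · simp only [ht, map_sum, map_mul, map_pow, hσv, hσW]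
        have h4 : ∀ j, ((-1 : E Λ) ^ (f j).val * v (h j)) ^ 2 = v (h j) ^ 2 := by
          intro j
          rw [mul_pow, ← pow_mul, mul_comm (f j).val 2, pow_mul, neg_one_sq, one_pow, one_mul]
        simp only [h4]
        exact Equiv.sum_comp h fun i => (v i ^ 2) ^ (e j : ℕ) * W i
    · have hyl : y (Sum.inr k) = x (Sum.inr k) := rfl
      rw [hyl, perm_x, hσk]
  -- the images of the invariants
  have hφM : ∀ f ∈ invField H, φ f ∈ M := by
    intro f hf
    rw [← hgen] at hf
    have h1 : adjoin ℂ (Set.range gen) ≤ M.comap φ := by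
      rw [adjoin_le_iff]
      rintro _ ⟨j, rfl⟩
      change φ (gen j) ∈ M
      by_cases hj : j = i0
      · rw [hj, hi0, hd2]
        exact pow_mem hdM 2
      · exact hgM j hj
    exact h1 hf
  obtain ⟨hp1, hp2⟩ := hP ι Λ H φ M hφM
  set M' : IntermediateField ℂ (E Λ) := M ⊔ adjoin ℂ (Set.range fun j => φ (x j)) with hM'
  have hMM' : M ≤ M' := le_sup_left
  have hVM' : ∀ j, v j ^ 2 ∈ M' := by
    intro j
    rw [← hφx]
    exact (le_sup_right : _ ≤ M') (subset_adjoin ℂ _ ⟨j, rfl⟩)
  have hWM' : ∀ j, W j ∈ M' := by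
    apply hV ℂ (E Λ) M' ι (fun j => v j ^ 2) W
    · intro i j hij
      simp only [← hφx] at hij
      exact x_injective ι (φ.toRingHom.injective hij)
    · exact hVM'
    · intro n hn
      exact hMM' (htM n hn)
  obtain ⟨hr1, hr2⟩ := hR ℂ (E Λ) M' ι (Finset.univ.erase i0) v 2 (by norm_num)
    (fun j _ => hVM' j)
  set M'' : IntermediateField ℂ (E Λ) :=
    M' ⊔ adjoin ℂ (v '' ((Finset.univ.erase i0 : Finset ι) : Set ι)) with hM''
  have hM'M'' : M' ≤ M'' := le_sup_left
  have hvM'' : ∀ j, v j ∈ M'' := by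
    have h1 : ∀ j, j ≠ i0 → v j ∈ M'' := by
      intro j hj
      exact (le_sup_right : _ ≤ M'') (subset_adjoin ℂ _ ⟨j, by simpa using hj, rfl⟩)
    intro j
    by_cases hj : j = i0
    · have h2 : v i0 = d / ∏ j ∈ Finset.univ.erase i0, v j := by
        rw [eq_div_iff (Finset.prod_ne_zero_iff.mpr fun j _ => hv0 j), hd]
        exact Finset.mul_prod_erase _ _ (Finset.mem_univ i0)
      rw [hj, h2]
      refine div_mem (hM'M'' (hMM' hdM)) (prod_mem fun k hk => h1 k ?_)
      exact (Finset.mem_erase.mp hk).1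
    · exact h1 j hj
  have hxM'' : ∀ l, (x l : E Λ) ∈ M'' := by
    have h2 : (2 : E Λ) ≠ 0 := two_ne_zero
    have h2M : (2 : E Λ) ∈ M'' := by
      have h3 : ((2 : ℕ) : E Λ) ∈ M'' := IntermediateField.natCast_mem M'' 2
      exact h3
    rintro (⟨j, a⟩ | k)
    · rcases zmod2_cases a with rfl | rfl
      · have h3 : (x (Sum.inl (j, 0)) : E Λ) = (W j + v j) / 2 := by
          rw [eq_div_iff h2, hv, hW]
          ring
        rw [h3]
        exact div_mem (add_mem (hM'M'' (hWM' j)) (hvM'' j)) h2M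
      · have h3 : (x (Sum.inl (j, 1)) : E Λ) = (W j - v j) / 2 := by
          rw [eq_div_iff h2, hv, hW]
          ring
        rw [h3]
        exact div_mem (sub_mem (hM'M'' (hWM' j)) (hvM'' j)) h2M
    · exact hM'M'' (hMM' (hxM k))
  have htop : M'' = ⊤ := by
    rw [eq_top_iff, ← adjoin_x_eq_top Λ, adjoin_le_iff]
    rintro _ ⟨l, rfl⟩
    exact hxM'' l
  rw [htop] at hr1 hr2
  have hmul : relfinrank M M' * relfinrank M' ⊤ = relfinrank M ⊤ :=
    relfinrank_mul_relfinrank hMM' le_top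
  refine ⟨y, ?_⟩
  have hne : Nonempty ι := ⟨i0⟩
  apply hC Λ (wrD κ H) M hMle
  · rw [← hmul]
    exact mul_ne_zero hp1 hr1
  · rw [← hmul, hK ι κ H, mul_comm (2 ^ _)]
    rw [Finset.card_erase_of_mem (Finset.mem_univ i0), Finset.card_univ] at hr2
    exact Nat.mul_le_mul hp2 hr2

end Pool.Agent.Lib_helper20.Noether
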