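import Pool.Agent.Lib_helper20.Noether.Stmts

/-!
# Wreath products with the group of order two, with the norm among the generators
-/

open MvPolynomial IntermediateField

namespace Pool.Agent.Lib_helper20.Noether.STEPN

open Pool.Agent.Lib_helper20.Noether

theorem perm_algebraMap {ι : Type} (σ : Equiv.Perm ι) (p : MvPolynomial ι ℂ) :
    perm σ (algebraMap (MvPolynomial ι ℂ) (E ι) p) =
      algebraMap (MvPolynomial ι ℂ) (E ι) (rename σ p) := by
  unfold perm
  rw [IsFractionRing.algEquivOfAlgEquiv_algebraMap]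
  rfl

theorem perm_x {ι : Type} (σ : Equiv.Perm ι) (i : ι) : perm σ (x i) = x (σ i) := by
  unfold x
  rw [perm_algebraMap, rename_X]

theorem x_injective {ι : Type} : Function.Injective (x : ι → E ι) := by
  intro i j h
  have h2 := IsFractionRing.injective (MvPolynomial ι ℂ) (E ι) h
  exact MvPolynomial.X_injective h2

theorem mem_invField {ι : Type} {H : Subgroup (Equiv.Perm ι)} {f : E ι} :
    f ∈ invField H ↔ ∀ σ ∈ H, perm σ f = f := Iff.rfl

theorem eq_top_of_x {ι : Type} (L : IntermediateField ℂ (E ι)) (h : ∀ i, x i ∈ L) : L = ⊤ := by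
  have hp : ∀ p : MvPolynomial ι ℂ, algebraMap (MvPolynomial ι ℂ) (E ι) p ∈ L := by
    intro p
    induction p using MvPolynomial.induction_on with
    | C a =>
      have e : algebraMap (MvPolynomial ι ℂ) (E ι) (C a) = algebraMap ℂ (E ι) a := by
        rw [← MvPolynomial.algebraMap_eq, ← IsScalarTower.algebraMap_apply]
      rw [e]
      exact L.algebraMap_mem a
    | add p q hp hq =>
      rw [map_add]
      exact L.add_mem hp hq
    | mul_X p i hp =>
      rw [map_mul]
      exact L.mul_mem hp (h i)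
  rw [eq_top_iff]
  intro f _
  obtain ⟨a, b, hb, rfl⟩ := IsFractionRing.div_surjective (A := MvPolynomial ι ℂ) f
  exact L.div_mem (hp a) (hp b)

end Pool.Agent.Lib_helper20.Noether.STEPN

namespace Pool.Agent.Lib_helper20.Noether

open STEPN

theorem STEPN_thm (hP : Stmt_PUSH) (hR : Stmt_RADI) (hV : Stmt_VAND) (hC : Stmt_CRIT)
    (hE : Stmt_EMB) (hI : Stmt_INDEP) (hK : Stmt_CARD) : Stmt_STEPN := by
  intro ι κ _ _ H hRat
  obtain ⟨y, hy, i0, hi0⟩ := hRat
  obtain ⟨φ, hφ, hφe⟩ := hE ι ((ι × ZMod 2) ⊕ κ)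
    (fun j => X (Sum.inl (j, 0)) * X (Sum.inl (j, 1))) (hI ι κ 2 le_rfl).2.1
  -- the variables
  set u : ι → E ((ι × ZMod 2) ⊕ κ) := fun j => x (Sum.inl (j, 0)) with hu
  set w : ι → E ((ι × ZMod 2) ⊕ κ) := fun j => x (Sum.inl (j, 1)) with hw
  set V : ι → E ((ι × ZMod 2) ⊕ κ) := fun j => φ (x j) with hVdef
  set W : ι → E ((ι × ZMod 2) ⊕ κ) := fun j => u j + w j with hWdef
  have hVuw : ∀ j, V j = u j * w j := by
    intro j
    rw [hVdef, hu, hw]
    simp only
    rw [hφ j, map_mul]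
    rfl
  set e : ι ≃ Fin (Fintype.card ι) := Fintype.equivFin ι with he
  set P : E ((ι × ZMod 2) ⊕ κ) := ∏ j, x j with hPdef
  classical
  set y' : (ι × ZMod 2) ⊕ κ → E ((ι × ZMod 2) ⊕ κ) := fun s =>
    Sum.elim (fun ji : ι × ZMod 2 =>
      if ji.2 = 0 then (if ji.1 = i0 then P else φ (y ji.1))
      else ∑ l, V l ^ (e ji.1 : ℕ) * W l) (fun k => x (Sum.inr k)) s with hy'
  have hy'0 : ∀ j, j ≠ i0 → y' (Sum.inl (j, 0)) = φ (y j) := by
    intro j hj
    rw [hy']
    simp [hj]
  have hy'00 : y' (Sum.inl (i0, 0)) = P := by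
    rw [hy']
    simp
  have hy'1 : ∀ j, y' (Sum.inl (j, 1)) = ∑ l, V l ^ (e j : ℕ) * W l := by
    intro j
    rw [hy']
    simp
  have hy'r : ∀ k, y' (Sum.inr k) = x (Sum.inr k) := by
    intro k
    rw [hy']
    simp
  set M : IntermediateField ℂ (E ((ι × ZMod 2) ⊕ κ)) := adjoin ℂ (Set.range y') with hM
  have hyM : ∀ s, y' s ∈ M := fun s => subset_adjoin ℂ _ ⟨s, rfl⟩
  -- invariance
  have hinv : M ≤ invField (wr 2 κ H) := by
    rw [hM, adjoin_le_iff]
    rintro _ ⟨s, rfl⟩
    intro σ hσ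
    obtain ⟨⟨h, hh, f, hf⟩, hr⟩ := hσ
    have hren : ∀ j, rename σ (X (Sum.inl (j, 0)) * X (Sum.inl (j, 1)) :
        MvPolynomial ((ι × ZMod 2) ⊕ κ) ℂ) = X (Sum.inl (h j, 0)) * X (Sum.inl (h j, 1)) := by
      intro j
      rw [map_mul, rename_X, rename_X, hf, hf]
      rcases (show f j = 0 ∨ f j = 1 by
        have : ∀ a : ZMod 2, a = 0 ∨ a = 1 := by decide
        exact this _) with h0 | h1
      · rw [h0, add_zero, add_zero]
      · rw [h1, zero_add, show (1 : ZMod 2) + 1 = 0 by decide, mul_comm]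
    have hφσ : ∀ g, perm σ (φ g) = φ (perm h g) := fun g => hφe h σ hren g
    have hVσ : ∀ j, perm σ (V j) = V (h j) := by
      intro j
      rw [hVdef]
      simp only
      rw [hφσ, perm_x]
    have hWσ : ∀ j, perm σ (W j) = W (h j) := by
      intro j
      rw [hWdef, hu, hw]
      simp only
      rw [map_add, perm_x, perm_x, hf, hf]
      rcases (show f j = 0 ∨ f j = 1 by
        have : ∀ a : ZMod 2, a = 0 ∨ a = 1 := by decide
        exact this _) with h0 | h1
      · rw [h0, add_zero, add_zero]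
      · rw [h1, zero_add, show (1 : ZMod 2) + 1 = 0 by decide, add_comm]
    rcases s with ⟨j, i⟩ | k
    · rcases (show i = 0 ∨ i = 1 by
        have : ∀ a : ZMod 2, a = 0 ∨ a = 1 := by decide
        exact this _) with rfl | rfl
      · by_cases hj : j = i0
        · rw [hj, hy'00, hPdef, map_prod]
          simp only [perm_x]
          exact Equiv.prod_comp σ (fun j => (x j : E ((ι × ZMod 2) ⊕ κ)))
        · rw [hy'0 j hj, hφσ]
          have hyj : y j ∈ invField H := by
            rw [← hy]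
            exact subset_adjoin ℂ _ ⟨j, rfl⟩
          rw [hyj h hh]
      · rw [hy'1, map_sum]
        simp only [map_mul, map_pow, hVσ, hWσ]
        exact Equiv.sum_comp h (fun l => V l ^ (e j : ℕ) * W l)
    · rw [hy'r, perm_x, hr]
  -- the image of the invariants
  have hPf : P = (∏ j, V j) * ∏ k, x (Sum.inr k) := by
    rw [hPdef, Fintype.prod_sum_type, Fintype.prod_prod_type]
    congr 1
    refine Finset.prod_congr rfl fun j _ => ?_
    rw [hVuw]
    exact Fin.prod_univ_two _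
  have hxne : ∀ s : (ι × ZMod 2) ⊕ κ, (x s : E ((ι × ZMod 2) ⊕ κ)) ≠ 0 := by
    intro s
    unfold x
    rw [Ne, FaithfulSMul.algebraMap_eq_zero_iff]
    exact X_ne_zero s
  have hφy : ∀ j, φ (y j) ∈ M := by
    intro j
    by_cases hj : j = i0
    · have h1 : φ (y j) = P / ∏ k, x (Sum.inr k) := by
        rw [hj, hi0, map_prod, hPf, mul_div_assoc, div_self, mul_one]
        exact Finset.prod_ne_zero_iff.2 fun k _ => hxne _
      rw [h1]
      refine M.div_mem ?_ (M.prod_mem fun k _ => ?_)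
      · rw [← hy'00]
        exact hyM _
      · rw [← hy'r]
        exact hyM _
    · rw [← hy'0 j hj]
      exact hyM _
  have hφM : ∀ f ∈ invField H, φ f ∈ M := by
    intro f hf
    rw [← hy] at hf
    have h1 : (adjoin ℂ (Set.range y)).map φ ≤ M := by
      rw [adjoin_map, adjoin_le_iff]
      rintro _ ⟨_, ⟨j, rfl⟩, rfl⟩
      exact hφy j
    exact h1 ⟨f, hf, rfl⟩
  obtain ⟨hP1, hP2⟩ := hP ι ((ι × ZMod 2) ⊕ κ) H φ M hφM
  set M' : IntermediateField ℂ (E ((ι × ZMod 2) ⊕ κ)) :=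
    M ⊔ adjoin ℂ (Set.range fun j => φ (x j)) with hM'
  have hMM' : M ≤ M' := le_sup_left
  have hVM' : ∀ j, V j ∈ M' := by
    intro j
    exact (le_sup_right : adjoin ℂ (Set.range fun j => φ (x j)) ≤ M')
      (subset_adjoin ℂ _ ⟨j, rfl⟩)
  have hVinj : Function.Injective V := fun i j hij => x_injective (φ.injective hij)
  have hWM' : ∀ j, W j ∈ M' := by
    refine hV ℂ (E ((ι × ZMod 2) ⊕ κ)) M' ι V W hVinj hVM' ?_
    intro n hn
    have h1 := hMM' (hyM (Sum.inl (e.symm ⟨n, hn⟩, 1)))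
    rw [hy'1, Equiv.apply_symm_apply] at h1
    exact h1
  obtain ⟨hR1, hR2⟩ := hR ℂ (E ((ι × ZMod 2) ⊕ κ)) M' ι Finset.univ (fun j => u j - w j) 2
    (by norm_num) (by
      intro j _
      have h1 : (u j - w j) ^ 2 = W j ^ 2 - 4 * V j := by
        rw [hVuw, hWdef]
        ring
      rw [h1]
      refine M'.sub_mem (M'.pow_mem (hWM' j) 2) (M'.mul_mem ?_ (hVM' j))
      exact_mod_cast M'.natCast_mem 4)
  set M'' : IntermediateField ℂ (E ((ι × ZMod 2) ⊕ κ)) :=
    M' ⊔ adjoin ℂ ((fun j => u j - w j) '' ((Finset.univ : Finset ι) : Set ι)) with hM''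
  have hM'M'' : M' ≤ M'' := le_sup_left
  have hvM'' : ∀ j, u j - w j ∈ M'' := by
    intro j
    refine (le_sup_right : adjoin ℂ ((fun j => u j - w j) '' ((Finset.univ : Finset ι) : Set ι))
      ≤ M'') (subset_adjoin ℂ _ ⟨j, by simp, rfl⟩)
  have htop : M'' = ⊤ := by
    refine eq_top_of_x M'' ?_
    have h2 : (2 : E ((ι × ZMod 2) ⊕ κ)) ∈ M'' := by exact_mod_cast M''.natCast_mem 2
    rintro (⟨j, i⟩ | k)
    · rcases (show i = 0 ∨ i = 1 by
        have : ∀ a : ZMod 2, a = 0 ∨ a = 1 := by decide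
        exact this _) with rfl | rfl
      · have h1 : (x (Sum.inl (j, 0)) : E ((ι × ZMod 2) ⊕ κ)) = (W j + (u j - w j)) / 2 := by
          rw [hWdef]
          change u j = _
          field_simp
          ring
        rw [h1]
        exact M''.div_mem (M''.add_mem (hM'M'' (hWM' j)) (hvM'' j)) h2
      · have h1 : (x (Sum.inl (j, 1)) : E ((ι × ZMod 2) ⊕ κ)) = (W j - (u j - w j)) / 2 := by
          rw [hWdef]
          change w j = _
          field_simp
          ring
        rw [h1]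
        exact M''.div_mem (M''.sub_mem (hM'M'' (hWM' j)) (hvM'' j)) h2
    · rw [← hy'r]
      exact hM'M'' (hMM' (hyM _))
  have hrel : relfinrank M M' * relfinrank M' M'' = relfinrank M M'' :=
    relfinrank_mul_relfinrank hMM' hM'M''
  rw [htop] at hrel hR1 hR2
  have hfin : M = invField (wr 2 κ H) := by
    refine hC ((ι × ZMod 2) ⊕ κ) (wr 2 κ H) M hinv ?_ ?_
    · rw [← hrel]
      exact mul_ne_zero hP1 hR1
    · rw [← hrel, hK 2 ι κ H (by norm_num), mul_comm]
      refine Nat.mul_le_mul ?_ hP2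
      rw [Finset.card_univ] at hR2
      exact hR2
  exact ⟨y', hfin, Sum.inl (i0, 0), hy'00⟩

end Pool.Agent.Lib_helper20.Noether
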