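import Pool.Agent.Lib_helper20.Noether.Stmts

/-!
# The step for wreath products with a cyclic group
-/

open MvPolynomial IntermediateField

namespace Pool.Agent.Lib_helper20.Noether.STEPQ

theorem perm_algebraMap {ι : Type} (σ : Equiv.Perm ι) (p : MvPolynomial ι ℂ) :
    perm σ (algebraMap _ (E ι) p) = algebraMap _ (E ι) (rename σ p) := by
  rw [perm, IsFractionRing.algEquivOfAlgEquiv_algebraMap]
  rfl

theorem perm_x {ι : Type} (σ : Equiv.Perm ι) (i : ι) : perm σ (x i) = x (σ i) := by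
  rw [x, perm_algebraMap, rename_X]; rfl

theorem x_injective {ι : Type} : Function.Injective (x : ι → E ι) := by
  intro i j h
  have h1 := IsFractionRing.injective (MvPolynomial ι ℂ) (E ι) h
  exact X_injective h1

theorem eq_top_of_x {ι : Type} {M : IntermediateField ℂ (E ι)} (h : ∀ i, x i ∈ M) : M = ⊤ := by
  have hp : ∀ p : MvPolynomial ι ℂ, algebraMap _ (E ι) p ∈ M := by
    intro p
    induction p using MvPolynomial.induction_on with
    | C a =>
      have : algebraMap (MvPolynomial ι ℂ) (E ι) (C a) = algebraMap ℂ (E ι) a := by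
        rw [IsScalarTower.algebraMap_apply ℂ (MvPolynomial ι ℂ) (E ι)]; rfl
      rw [this]
      exact M.algebraMap_mem a
    | add p q hp hq => rw [map_add]; exact M.add_mem hp hq
    | mul_X p i hp => rw [map_mul]; exact M.mul_mem hp (h i)
  rw [eq_top_iff]
  intro f _
  obtain ⟨a, b, _, rfl⟩ := IsFractionRing.div_surjective (A := MvPolynomial ι ℂ) f
  exact M.div_mem (hp a) (hp b)

section
variable {q : ℕ} [NeZero q] {ι κ : Type}

/-- The discrete Fourier transform of the variables. -/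
noncomputable def Z (a : ZMod q) (j : ι) : E ((ι × ZMod q) ⊕ κ) :=
  ∑ i : ZMod q, algebraMap ℂ _ (ZMod.stdAddChar (a * i)) * x (Sum.inl (j, i))

theorem Z_perm {σ : Equiv.Perm ((ι × ZMod q) ⊕ κ)} {h : Equiv.Perm ι} {f : ι → ZMod q}
    (hσ : ∀ j i, σ (Sum.inl (j, i)) = Sum.inl (h j, i + f j)) (a : ZMod q) (j : ι) :
    perm σ (Z a j) = algebraMap ℂ _ (ZMod.stdAddChar (- (a * f j))) * Z (κ := κ) a (h j) := by
  rw [Z, map_sum, Z, Finset.mul_sum]
  rw [← Equiv.sum_comp (Equiv.addRight (f j)) (fun i => algebraMap ℂ (E ((ι × ZMod q) ⊕ κ))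
    (ZMod.stdAddChar (- (a * f j))) * (algebraMap ℂ _ (ZMod.stdAddChar (a * i)) *
      x (Sum.inl (h j, i))))]
  refine Finset.sum_congr rfl fun i _ => ?_
  rw [map_mul, AlgEquiv.commutes, perm_x, hσ, Equiv.coe_addRight, ← mul_assoc, ← map_mul,
    ← AddChar.map_add_eq_mul]
  congr 3
  ring

theorem Z_ne (a : ZMod q) (j : ι) : Z (κ := κ) a j ≠ 0 := by
  intro h
  have h1 : Z (κ := κ) a j = algebraMap (MvPolynomial ((ι × ZMod q) ⊕ κ) ℂ) _
      (∑ i : ZMod q, C (ZMod.stdAddChar (a * i)) * X (Sum.inl (j, i))) := by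
    rw [Z, map_sum]
    refine Finset.sum_congr rfl fun i _ => ?_
    rw [RingHom.map_mul, IsScalarTower.algebraMap_apply ℂ (MvPolynomial ((ι × ZMod q) ⊕ κ) ℂ) (E _)]
    rfl
  rw [h1, map_eq_zero_iff _ (IsFractionRing.injective (MvPolynomial ((ι × ZMod q) ⊕ κ) ℂ)
    (E ((ι × ZMod q) ⊕ κ)))] at h
  classical
  have h2 := congrArg (MvPolynomial.eval (fun k => if k = Sum.inl (j, 0) then (1 : ℂ) else 0)) h
  simp at h2

theorem Z_inv (j : ι) (i : ZMod q) : x (Sum.inl (j, i)) = algebraMap ℂ (E ((ι × ZMod q) ⊕ κ))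
    ((q : ℂ)⁻¹) * ∑ a : ZMod q, algebraMap ℂ _ (ZMod.stdAddChar (- (a * i))) * Z a j := by
  classical
  have h1 : ∑ a : ZMod q, algebraMap ℂ (E ((ι × ZMod q) ⊕ κ)) (ZMod.stdAddChar (- (a * i))) *
      Z a j = ∑ i' : ZMod q, algebraMap ℂ (E ((ι × ZMod q) ⊕ κ))
        (∑ a : ZMod q, ZMod.stdAddChar (a * (i' - i))) * x (Sum.inl (j, i')) := by
    simp only [Z, Finset.mul_sum]
    rw [Finset.sum_comm]
    refine Finset.sum_congr rfl fun i' _ => ?_
    rw [map_sum, Finset.sum_mul]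
    refine Finset.sum_congr rfl fun a _ => ?_
    rw [← mul_assoc, ← map_mul, ← AddChar.map_add_eq_mul]
    congr 3
    ring
  rw [h1]
  have h2 : ∀ i' : ZMod q, ∑ a : ZMod q, (ZMod.stdAddChar (a * (i' - i)) : ℂ) =
      if i' = i then (q : ℂ) else 0 := by
    intro i'
    rw [AddChar.sum_mulShift _ (ZMod.isPrimitive_stdAddChar q)]
    simp only [sub_eq_zero, ZMod.card]
    split_ifs <;> simp
  simp only [h2]
  rw [Finset.sum_eq_single i]
  · rw [if_pos rfl, ← mul_assoc, ← map_mul, inv_mul_cancel₀, map_one, one_mul]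
    exact_mod_cast NeZero.ne q
  · intro b _ hb
    rw [if_neg hb, map_zero, zero_mul]
  · intro h; exact absurd (Finset.mem_univ _) h

/-- The modified transforms. -/
noncomputable def Y (a : ZMod q) (j : ι) : E ((ι × ZMod q) ⊕ κ) :=
  if a = 1 then Z 1 j ^ q else Z a j / Z 1 j ^ a.val

theorem char_pow (b : ZMod q) (n : ℕ) : (ZMod.stdAddChar b : ℂ) ^ n =
    ZMod.stdAddChar ((n : ZMod q) * b) := by
  rw [← AddChar.map_nsmul_eq_pow, nsmul_eq_mul]

theorem char_ne (b : ZMod q) : (ZMod.stdAddChar b : ℂ) ≠ 0 := by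
  intro h
  have h1 := AddChar.map_add_eq_mul (ZMod.stdAddChar (N := q)) b (-b)
  rw [h, zero_mul, add_neg_cancel, AddChar.map_zero_eq_one] at h1
  exact one_ne_zero h1

theorem Y_perm {σ : Equiv.Perm ((ι × ZMod q) ⊕ κ)} {h : Equiv.Perm ι} {f : ι → ZMod q}
    (hσ : ∀ j i, σ (Sum.inl (j, i)) = Sum.inl (h j, i + f j)) (a : ZMod q) (j : ι) :
    perm σ (Y a j) = Y (κ := κ) a (h j) := by
  rw [Y, Y]
  split_ifs with h1
  · rw [map_pow, Z_perm hσ, mul_pow, ← map_pow, char_pow]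
    simp
  · rw [map_div₀, map_pow, Z_perm hσ, Z_perm hσ, mul_pow, ← map_pow, char_pow]
    have h2 : ((a.val : ℕ) : ZMod q) * -(1 * f j) = -(a * f j) := by
      rw [ZMod.natCast_zmod_val]; ring
    rw [h2, mul_div_mul_left]
    rw [map_ne_zero_iff _ (algebraMap ℂ (E ((ι × ZMod q) ⊕ κ))).injective]
    exact char_ne _

end

end Pool.Agent.Lib_helper20.Noether.STEPQ

namespace Pool.Agent.Lib_helper20.Noether

open STEPQ

theorem STEPQ_thm (hP : Stmt_PUSH) (hR : Stmt_RADI) (hV : Stmt_VAND) (hC : Stmt_CRIT)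
    (hE : Stmt_EMB) (hI : Stmt_INDEP) (hK : Stmt_CARD) : Stmt_STEPQ := by
  intro q ι κ _ _ H hq hRat
  have : NeZero q := ⟨by omega⟩
  obtain ⟨gen, hgen⟩ := hRat
  obtain ⟨φ, hφ, hφe⟩ := hE ι ((ι × ZMod q) ⊕ κ) _ (hI ι κ q hq).1
  have h10 : (1 : ZMod q) ≠ 0 := by
    have : Fact (1 < q) := ⟨by omega⟩
    exact one_ne_zero
  -- the images of the variables
  have hφx : ∀ j, φ (x j) = Z (κ := κ) 0 j := by
    intro j
    rw [hφ, Z, map_sum]
    refine Finset.sum_congr rfl fun i _ => ?_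
    rw [zero_mul, AddChar.map_zero_eq_one, map_one, one_mul]
    rfl
  have hY0 : ∀ j, Y (κ := κ) (0 : ZMod q) j = φ (x j) := by
    intro j
    rw [hφx, Y, if_neg h10.symm, ZMod.val_zero, pow_zero, div_one]
  have hwr : ∀ σ ∈ wr q κ H, ∃ h ∈ H, ∃ f : ι → ZMod q,
      (∀ j i, σ (Sum.inl (j, i)) = Sum.inl (h j, i + f j)) ∧ (∀ k, σ (Sum.inr k) = Sum.inr k) ∧
      ∀ g, perm σ (φ g) = φ (perm h g) := by
    rintro σ ⟨⟨h, hh, f, hf⟩, hk⟩
    refine ⟨h, hh, f, hf, hk, hφe h σ fun j => ?_⟩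
    rw [map_sum]
    rw [← Equiv.sum_comp (Equiv.addRight (f j)) (fun i => (X (Sum.inl (h j, i)) :
      MvPolynomial ((ι × ZMod q) ⊕ κ) ℂ))]
    refine Finset.sum_congr rfl fun i _ => ?_
    rw [rename_X, hf]
    rfl
  -- the generators
  let e := Fintype.equivFin ι
  let y : (ι × ZMod q) ⊕ κ → E ((ι × ZMod q) ⊕ κ) := fun k => match k with
    | Sum.inl (i, a) => if a = 0 then φ (gen i) else
        ∑ j, Y 0 j ^ (e i : ℕ) * Y a j
    | Sum.inr k => x (Sum.inr k)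
  refine ⟨y, ?_⟩
  set M : IntermediateField ℂ (E ((ι × ZMod q) ⊕ κ)) := adjoin ℂ (Set.range y) with hM
  have hyM : ∀ k, y k ∈ M := fun k => subset_adjoin ℂ _ ⟨k, rfl⟩
  have hMφ : ∀ f ∈ invField H, φ f ∈ M := by
    intro f hf
    have h1 : adjoin ℂ (Set.range gen) ≤ M.comap φ := by
      rw [adjoin_le_iff]
      rintro _ ⟨i, rfl⟩
      have h2 := hyM (Sum.inl (i, 0))
      simp only [y, if_true] at h2
      exact h2
    rw [hgen] at h1
    exact h1 hf
  have hMt : ∀ a : ZMod q, a ≠ 0 → ∀ n < Fintype.card ι,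
      ∑ j, Y (κ := κ) (0 : ZMod q) j ^ n * Y a j ∈ M := by
    intro a ha n hn
    have h2 := hyM (Sum.inl (e.symm ⟨n, hn⟩, a))
    simp only [y, if_neg ha, Equiv.apply_symm_apply] at h2
    exact h2
  -- M is contained in the field of invariants
  have hMinv : M ≤ invField (wr q κ H) := by
    rw [hM, adjoin_le_iff]
    rintro _ ⟨k, rfl⟩ σ hσ
    obtain ⟨h, hh, f, hf, hk, hφσ⟩ := hwr σ hσ
    rcases k with ⟨i, a⟩ | k
    · by_cases ha : a = 0
      · simp only [y, if_pos ha]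
        rw [hφσ]
        have h2 : gen i ∈ invField H := by
          rw [← hgen]; exact subset_adjoin ℂ _ ⟨i, rfl⟩
        rw [h2 h hh]
      · simp only [y, if_neg ha]
        rw [map_sum, ← Equiv.sum_comp h (fun j => Y (κ := κ) (0 : ZMod q) j ^ (e i : ℕ) * Y a j)]
        refine Finset.sum_congr rfl fun j _ => ?_
        rw [map_mul, map_pow, Y_perm hf, Y_perm hf]
    · show perm σ (x (Sum.inr k)) = x (Sum.inr k)
      rw [perm_x, hk]
  -- the degrees
  obtain ⟨hd1, hd2⟩ := hP ι ((ι × ZMod q) ⊕ κ) H φ M hMφ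
  set M' : IntermediateField ℂ (E ((ι × ZMod q) ⊕ κ)) :=
    M ⊔ adjoin ℂ (Set.range fun j => φ (x j)) with hM'
  have hMM' : M ≤ M' := le_sup_left
  have hY0M : ∀ j, Y (κ := κ) (0 : ZMod q) j ∈ M' := by
    intro j
    rw [hY0]
    exact (le_sup_right : adjoin ℂ (Set.range fun j => φ (x j)) ≤ M')
      (subset_adjoin ℂ _ ⟨j, rfl⟩)
  have hYM : ∀ a : ZMod q, ∀ j, Y (κ := κ) a j ∈ M' := by
    intro a
    by_cases ha : a = 0
    · subst ha; exact hY0M
    · refine hV ℂ _ M' ι (fun j => Y (κ := κ) (0 : ZMod q) j) (fun j => Y a j) ?_ hY0M ?_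
      · intro i j hij
        simp only [hY0] at hij
        exact x_injective (φ.injective hij)
      · intro n hn
        exact hMM' (hMt a ha n hn)
  obtain ⟨hd3, hd4⟩ := hR ℂ _ M' ι Finset.univ (fun j => Z (κ := κ) (1 : ZMod q) j) q (by omega)
    (fun j _ => by
      have h2 := hYM 1 j
      rw [Y, if_pos rfl] at h2
      exact h2)
  set M'' : IntermediateField ℂ (E ((ι × ZMod q) ⊕ κ)) :=
    M' ⊔ adjoin ℂ ((fun j => Z (κ := κ) (1 : ZMod q) j) '' (Finset.univ : Finset ι)) with hM''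
  have hM'M'' : M' ≤ M'' := le_sup_left
  have hZ1 : ∀ j, Z (κ := κ) (1 : ZMod q) j ∈ M'' := by
    intro j
    exact (le_sup_right : adjoin ℂ ((fun j => Z (κ := κ) (1 : ZMod q) j) ''
      (Finset.univ : Finset ι)) ≤ M'') (subset_adjoin ℂ _ ⟨j, by simp, rfl⟩)
  have hZ : ∀ (a : ZMod q) j, Z (κ := κ) a j ∈ M'' := by
    intro a j
    by_cases ha : a = 1
    · subst ha; exact hZ1 j
    · have h2 := hM'M'' (hYM a j)
      rw [Y, if_neg ha] at h2
      have h3 : Z (κ := κ) a j = Z a j / Z 1 j ^ a.val * Z 1 j ^ a.val :=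
        (div_mul_cancel₀ _ (pow_ne_zero _ (Z_ne 1 j))).symm
      rw [h3]
      exact M''.mul_mem h2 (pow_mem (hZ1 j) _)
  have htop : M'' = ⊤ := by
    refine eq_top_of_x fun k => ?_
    rcases k with ⟨j, i⟩ | k
    · rw [Z_inv]
      refine M''.mul_mem (M''.algebraMap_mem _) (sum_mem fun a _ =>
        M''.mul_mem (M''.algebraMap_mem _) (hZ a j))
    · exact hM'M'' (hMM' (hyM (Sum.inr k)))
  rw [htop] at hd3 hd4 hM'M''
  have hdeg := relfinrank_mul_relfinrank hMM' hM'M''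
  refine hC _ _ M hMinv ?_ ?_
  · rw [← hdeg]
    exact mul_ne_zero hd1 hd3
  · rw [← hdeg, hK q ι κ H (by omega), mul_comm]
    exact Nat.mul_le_mul hd4 hd2

end Pool.Agent.Lib_helper20.Noether
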