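import Pool.Agent.Lib_helper20.Noether.Stmts

/-!
# Sylow subgroups of the symmetric and alternating groups with rational fields of invariants
-/

open MvPolynomial IntermediateField

namespace Pool.Agent.Lib_helper20.Noether

namespace SYL

variable {ι : Type}

theorem perm_algebraMap (σ : Equiv.Perm ι) (p : MvPolynomial ι ℂ) :
    perm σ (algebraMap (MvPolynomial ι ℂ) (E ι) p) =
      algebraMap (MvPolynomial ι ℂ) (E ι) (rename σ p) := by
  unfold perm
  rw [IsFractionRing.algEquivOfAlgEquiv_algebraMap]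
  rfl

theorem exists_div (f : E ι) : ∃ a b : MvPolynomial ι ℂ,
    f = algebraMap (MvPolynomial ι ℂ) (E ι) a / algebraMap (MvPolynomial ι ℂ) (E ι) b := by
  obtain ⟨a, b, _, h⟩ := IsFractionRing.div_surjective (A := MvPolynomial ι ℂ) f
  exact ⟨a, b, h.symm⟩

theorem perm_one (f : E ι) : perm (1 : Equiv.Perm ι) f = f := by
  obtain ⟨a, b, rfl⟩ := exists_div f
  rw [map_div₀, perm_algebraMap, perm_algebraMap]
  have h : ∀ p : MvPolynomial ι ℂ, rename (1 : Equiv.Perm ι) p = p := fun p => by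
    rw [Equiv.Perm.coe_one, rename_id_apply]
  rw [h, h]

theorem invField_bot : invField (⊥ : Subgroup (Equiv.Perm ι)) = ⊤ := by
  rw [eq_top_iff]
  intro f _ σ hσ
  rw [Subgroup.mem_bot.1 hσ]
  exact perm_one f

theorem adjoin_x : adjoin ℂ (Set.range (x : ι → E ι)) = ⊤ := by
  rw [eq_top_iff]
  intro f _
  have h : ∀ p : MvPolynomial ι ℂ, algebraMap (MvPolynomial ι ℂ) (E ι) p ∈
      adjoin ℂ (Set.range (x : ι → E ι)) := by
    intro p
    induction p using MvPolynomial.induction_on with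
    | C a =>
      have : algebraMap (MvPolynomial ι ℂ) (E ι) (C a) = algebraMap ℂ (E ι) a := by
        rw [IsScalarTower.algebraMap_apply ℂ (MvPolynomial ι ℂ) (E ι)]
        rfl
      rw [this]
      exact IntermediateField.algebraMap_mem _ a
    | add p q hp hq =>
      rw [map_add]
      exact add_mem hp hq
    | mul_X p i hp =>
      rw [map_mul]
      exact mul_mem hp (subset_adjoin ℂ _ ⟨i, rfl⟩)
  obtain ⟨a, b, rfl⟩ := exists_div f
  exact div_mem (h a) (h b)

theorem rat_bot : Rat (⊥ : Subgroup (Equiv.Perm ι)) :=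
  ⟨x, by rw [invField_bot, adjoin_x]⟩

theorem RatN.rat [Fintype ι] {H : Subgroup (Equiv.Perm ι)} (h : RatN H) : Rat H := by
  obtain ⟨y, hy, _⟩ := h
  exact ⟨y, hy⟩

theorem fact_step (q n : ℕ) (hq : q.Prime) :
    (n.factorial).factorization q = n / q + ((n / q).factorial).factorization q := by
  haveI : Fact q.Prime := ⟨hq⟩
  rw [Nat.factorization_def _ hq, Nat.factorization_def _ hq, ← padicValNat_mul_div_factorial,
    padicValNat_factorial_mul, add_comm]

/-- The bijection. -/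
noncomputable def eqv (q n : ℕ) [NeZero q] : (Fin (n / q) × ZMod q) ⊕ Fin (n % q) ≃ Fin n :=
  Fintype.equivOfCardEq (by
    rw [Fintype.card_sum, Fintype.card_prod, ZMod.card, Fintype.card_fin, Fintype.card_fin,
      Fintype.card_fin, Nat.div_add_mod' n q])

theorem card_map {α β : Type} (e : α ≃ β) (H : Subgroup (Equiv.Perm α)) :
    Nat.card (H.map (e.permCongrHom : Equiv.Perm α →* Equiv.Perm β)) = Nat.card H :=
  (Nat.card_congr (H.equivMapOfInjective _ e.permCongrHom.injective).toEquiv).symm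

/-- The induction. -/
theorem main (hQ : Stmt_STEPQ) (hN : Stmt_STEPN) (hT : Stmt_TRANS) (hK : Stmt_CARD) (q : ℕ)
    (hq : q.Prime) (n : ℕ) : ∃ P : Subgroup (Equiv.Perm (Fin n)),
      Nat.card P = q ^ (n.factorial).factorization q ∧ Rat P ∧ (q = 2 → 0 < n → RatN P) := by
  haveI : NeZero q := ⟨hq.ne_zero⟩
  induction n using Nat.strong_induction_on with
  | _ n ih =>
    rcases lt_or_ge n q with hlt | hge
    · refine ⟨⊥, ?_, rat_bot, ?_⟩
      · rw [Nat.factorization_factorial_eq_zero_of_lt hlt, pow_zero]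
        exact Subgroup.card_bot
      · rintro rfl h0
        obtain rfl : n = 1 := by omega
        refine ⟨x, by rw [invField_bot, adjoin_x], 0, ?_⟩
        simp
    · have hm : n / q < n := Nat.div_lt_self (by have := hq.two_le; omega) hq.one_lt
      have hm0 : 0 < n / q := Nat.div_pos hge hq.pos
      obtain ⟨H, hH1, hH2, hH3⟩ := ih (n / q) hm
      refine ⟨(wr q (Fin (n % q)) H).map ((eqv q n).permCongrHom : _ →* _), ?_, ?_, ?_⟩
      · rw [card_map, hK q _ _ H hq.pos, hH1, Fintype.card_fin, fact_step q n hq, pow_add]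
      · exact (hT _ _ (eqv q n) _).1 (hQ q _ _ H hq.two_le hH2)
      · rintro rfl _
        exact (hT _ _ (eqv 2 n) _).2 (hN _ _ H (hH3 rfl hm0))

end SYL

open SYL in
theorem SYL_thm (hQ : Stmt_STEPQ) (hN : Stmt_STEPN) (hD : Stmt_STEPD) (hT : Stmt_TRANS)
    (hK : Stmt_CARD) (hKD : Stmt_CARDD) (hS : Stmt_SIGN) : Stmt_SYL := by
  intro q n hq
  refine ⟨?_, fun hn => ?_⟩
  · obtain ⟨P, h1, h2, _⟩ := main hQ hN hT hK q hq n
    exact ⟨P, h1, h2⟩
  · have hm0 : 0 < n / 2 := Nat.div_pos hn two_pos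
    obtain ⟨H, hH1, _, hH3⟩ := main hQ hN hT hK 2 Nat.prime_two (n / 2)
    have hR : RatN H := hH3 rfl hm0
    haveI : Nonempty (Fin (n / 2)) := ⟨⟨0, hm0⟩⟩
    refine ⟨(wrD (Fin (n % 2)) H).map ((eqv 2 n).permCongrHom : _ →* _), ?_, ?_, ?_⟩
    · rintro _ ⟨σ, hσ, rfl⟩
      have h1 := hS _ _ H hσ
      rw [Equiv.Perm.mem_alternatingGroup] at h1 ⊢
      show Equiv.Perm.sign ((eqv 2 n).permCongr σ) = 1
      rw [Equiv.Perm.sign_permCongr]
      exact h1
    · rw [card_map, hKD, hH1, Fintype.card_fin, fact_step 2 n Nat.prime_two, ← pow_add]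
      congr 1
      omega
    · exact (hT _ _ (eqv 2 n) _).1 (hD _ _ H hR)

end Pool.Agent.Lib_helper20.Noether
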