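import Pool.Agent.Lib_helper20.Noether.Defs

/-!
# Fields of invariants of Sylow subgroups: statements of the modules
-/

open MvPolynomial IntermediateField

namespace Pool.Agent.Lib_helper20.Noether

/-- The field of invariants is generated by as many elements as there are variables. -/
def Rat {ι : Type} (H : Subgroup (Equiv.Perm ι)) : Prop :=
  ∃ y : ι → E ι, adjoin ℂ (Set.range y) = invField H

/-- The same, and the product of all variables is one of the generators. -/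
def RatN {ι : Type} [Fintype ι] (H : Subgroup (Equiv.Perm ι)) : Prop :=
  ∃ y : ι → E ι, adjoin ℂ (Set.range y) = invField H ∧ ∃ i, y i = ∏ j, x j

/-- The wreath product of `ℤ/q` and `H`, acting on `ι × ℤ/q`, and trivially on `κ`. -/
def wr (q : ℕ) {ι : Type} (κ : Type) (H : Subgroup (Equiv.Perm ι)) :
    Subgroup (Equiv.Perm ((ι × ZMod q) ⊕ κ)) where
  carrier := {σ | (∃ h ∈ H, ∃ f : ι → ZMod q, ∀ j i, σ (Sum.inl (j, i)) =
    Sum.inl (h j, i + f j)) ∧ ∀ k, σ (Sum.inr k) = Sum.inr k}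
  mul_mem' := by
    rintro a b ⟨⟨h, hh, f, hf⟩, ha⟩ ⟨⟨h', hh', f', hf'⟩, hb⟩
    refine ⟨⟨h * h', H.mul_mem hh hh', fun j => f' j + f (h' j), fun j i => ?_⟩, fun k => ?_⟩
    · rw [Equiv.Perm.mul_apply, hf', hf, Equiv.Perm.mul_apply, add_assoc]
    · rw [Equiv.Perm.mul_apply, hb, ha]
  one_mem' := ⟨⟨1, H.one_mem, 0, fun j i => by simp⟩, fun k => rfl⟩
  inv_mem' := by
    rintro a ⟨⟨h, hh, f, hf⟩, ha⟩
    refine ⟨⟨h⁻¹, H.inv_mem hh, fun j => - f (h⁻¹ j), fun j i => ?_⟩, fun k => ?_⟩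
    · rw [Equiv.Perm.inv_eq_iff_eq, hf, show h (h⁻¹ j) = j from Equiv.apply_symm_apply h j,
        neg_add_cancel_right]
    · rw [Equiv.Perm.inv_eq_iff_eq, ha]

/-- The subgroup of the wreath product of `ℤ/2` and `H` of the elements with even first
component. -/
def wrD {ι : Type} [Fintype ι] (κ : Type) (H : Subgroup (Equiv.Perm ι)) :
    Subgroup (Equiv.Perm ((ι × ZMod 2) ⊕ κ)) where
  carrier := {σ | (∃ h ∈ H, ∃ f : ι → ZMod 2, ∑ j, f j = 0 ∧ ∀ j i, σ (Sum.inl (j, i)) =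
    Sum.inl (h j, i + f j)) ∧ ∀ k, σ (Sum.inr k) = Sum.inr k}
  mul_mem' := by
    rintro a b ⟨⟨h, hh, f, hf0, hf⟩, ha⟩ ⟨⟨h', hh', f', hf0', hf'⟩, hb⟩
    refine ⟨⟨h * h', H.mul_mem hh hh', fun j => f' j + f (h' j), ?_, fun j i => ?_⟩, fun k => ?_⟩
    · rw [Finset.sum_add_distrib, hf0', Equiv.sum_comp h' f, hf0, add_zero]
    · rw [Equiv.Perm.mul_apply, hf', hf, Equiv.Perm.mul_apply, add_assoc]
    · rw [Equiv.Perm.mul_apply, hb, ha]
  one_mem' := ⟨⟨1, H.one_mem, 0, by simp, fun j i => by simp⟩, fun k => rfl⟩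
  inv_mem' := by
    rintro a ⟨⟨h, hh, f, hf0, hf⟩, ha⟩
    refine ⟨⟨h⁻¹, H.inv_mem hh, fun j => - f (h⁻¹ j), ?_, fun j i => ?_⟩, fun k => ?_⟩
    · rw [Finset.sum_neg_distrib, Equiv.sum_comp h⁻¹ f, hf0, neg_zero]
    · rw [Equiv.Perm.inv_eq_iff_eq, hf, show h (h⁻¹ j) = j from Equiv.apply_symm_apply h j,
        neg_add_cancel_right]
    · rw [Equiv.Perm.inv_eq_iff_eq, ha]

/-! ### Field theory -/

/-- Base change of a finite extension inside a field. -/
def Stmt_BASE : Prop :=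
  ∀ (K Ω : Type) [Field K] [CharZero K] [Field Ω] [Algebra K Ω] (A B M : IntermediateField K Ω),
    A ≤ B → A ≤ M → relfinrank A B ≠ 0 →
      relfinrank M (M ⊔ B) ≠ 0 ∧ relfinrank M (M ⊔ B) ≤ relfinrank A B

/-- Adjoining finitely many roots. -/
def Stmt_RADI : Prop :=
  ∀ (K Ω : Type) [Field K] [Field Ω] [Algebra K Ω] (M : IntermediateField K Ω) (ι : Type)
    (J : Finset ι) (v : ι → Ω) (q : ℕ), 0 < q → (∀ j ∈ J, v j ^ q ∈ M) →
      relfinrank M (M ⊔ adjoin K (v '' J)) ≠ 0 ∧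
        relfinrank M (M ⊔ adjoin K (v '' J)) ≤ q ^ J.card

/-- Vandermonde. -/
def Stmt_VAND : Prop :=
  ∀ (K Ω : Type) [Field K] [Field Ω] [Algebra K Ω] (M : IntermediateField K Ω) (ι : Type)
    [Fintype ι] (Y W : ι → Ω), Function.Injective Y → (∀ j, Y j ∈ M) →
      (∀ n < Fintype.card ι, ∑ j, Y j ^ n * W j ∈ M) → ∀ j, W j ∈ M

/-- A field of rational functions in `m` variables which is algebraic over a field generated by
`m` elements: these are algebraically independent. -/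
def Stmt_COUNT : Prop :=
  ∀ (ι : Type) [Fintype ι] (y : ι → E ι),
    Algebra.IsAlgebraic (adjoin ℂ (Set.range y)) (E ι) → AlgebraicIndependent ℂ y

/-- Artin's theorem. -/
def Stmt_ARTIN : Prop :=
  ∀ (ι : Type) [Fintype ι] (H : Subgroup (Equiv.Perm ι)),
    relfinrank (invField H) ⊤ = Nat.card H

/-- Recognising the field of invariants (from ARTIN). -/
def Stmt_CRIT : Prop :=
  ∀ (ι : Type) [Fintype ι] (H : Subgroup (Equiv.Perm ι)) (M : IntermediateField ℂ (E ι)),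
    M ≤ invField H → relfinrank M ⊤ ≠ 0 → relfinrank M ⊤ ≤ Nat.card H → M = invField H

/-- The degree of the field generated by the images of all variables over a field that contains
the images of all invariants (from BASE, ARTIN). -/
def Stmt_PUSH : Prop :=
  ∀ (ι κ : Type) [Fintype ι] (H : Subgroup (Equiv.Perm ι)) (φ : E ι →ₐ[ℂ] E κ)
    (M : IntermediateField ℂ (E κ)), (∀ f ∈ invField H, φ f ∈ M) →
      relfinrank M (M ⊔ adjoin ℂ (Set.range fun j => φ (x j))) ≠ 0 ∧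
        relfinrank M (M ⊔ adjoin ℂ (Set.range fun j => φ (x j))) ≤ Nat.card H

/-- Equivariant embeddings of fields of rational functions. -/
def Stmt_EMB : Prop :=
  ∀ (ι κ : Type) (g : ι → MvPolynomial κ ℂ), AlgebraicIndependent ℂ g →
    ∃ φ : E ι →ₐ[ℂ] E κ, (∀ j, φ (x j) = algebraMap (MvPolynomial κ ℂ) (E κ) (g j)) ∧
      ∀ (h : Equiv.Perm ι) (τ : Equiv.Perm κ), (∀ j, rename τ (g j) = g (h j)) →
        ∀ f, perm τ (φ f) = φ (perm h f)

/-- The three families of polynomials used below are algebraically independent. -/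
def Stmt_INDEP : Prop :=
  ∀ (ι κ : Type) (q : ℕ), 2 ≤ q → ∀ [NeZero q],
    AlgebraicIndependent ℂ (fun j : ι => ∑ i : ZMod q,
      (X (Sum.inl (j, i)) : MvPolynomial ((ι × ZMod q) ⊕ κ) ℂ)) ∧
    AlgebraicIndependent ℂ (fun j : ι =>
      (X (Sum.inl (j, 0)) * X (Sum.inl (j, 1)) : MvPolynomial ((ι × ZMod 2) ⊕ κ) ℂ)) ∧
    AlgebraicIndependent ℂ (fun j : ι =>
      ((X (Sum.inl (j, 0)) - X (Sum.inl (j, 1))) ^ 2 : MvPolynomial ((ι × ZMod 2) ⊕ κ) ℂ))

/-! ### Groups -/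

def Stmt_CARD : Prop :=
  ∀ (q : ℕ) (ι κ : Type) [Fintype ι] [Fintype κ] (H : Subgroup (Equiv.Perm ι)), 0 < q →
    Nat.card (wr q κ H) = q ^ Fintype.card ι * Nat.card H

def Stmt_CARDD : Prop :=
  ∀ (ι κ : Type) [Fintype ι] [Nonempty ι] [Fintype κ] (H : Subgroup (Equiv.Perm ι)),
    Nat.card (wrD κ H) = 2 ^ (Fintype.card ι - 1) * Nat.card H

def Stmt_SIGN : Prop :=
  ∀ (ι κ : Type) [Fintype ι] [DecidableEq ι] [Fintype κ] [DecidableEq κ]
    (H : Subgroup (Equiv.Perm ι)), wrD κ H ≤ alternatingGroup ((ι × ZMod 2) ⊕ κ)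

/-! ### The steps -/

/-- Wreath products with `ℤ/q`. -/
def Stmt_STEPQ : Prop :=
  ∀ (q : ℕ) (ι κ : Type) [Fintype ι] [Fintype κ] (H : Subgroup (Equiv.Perm ι)), 2 ≤ q →
    Rat H → Rat (wr q κ H)

/-- Wreath products with `ℤ/2`, with the norm among the generators. -/
def Stmt_STEPN : Prop :=
  ∀ (ι κ : Type) [Fintype ι] [Fintype κ] (H : Subgroup (Equiv.Perm ι)),
    RatN H → RatN (wr 2 κ H)

/-- The even subgroup of the wreath product with `ℤ/2`. -/
def Stmt_STEPD : Prop :=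
  ∀ (ι κ : Type) [Fintype ι] [Fintype κ] (H : Subgroup (Equiv.Perm ι)),
    RatN H → Rat (wrD κ H)

/-- Renaming the variables. -/
def Stmt_TRANS : Prop :=
  ∀ (ι ι' : Type) [Fintype ι] [Fintype ι'] (e : ι ≃ ι') (H : Subgroup (Equiv.Perm ι)),
    (Rat H → Rat (H.map (e.permCongrHom : Equiv.Perm ι →* Equiv.Perm ι'))) ∧
    (RatN H → RatN (H.map (e.permCongrHom : Equiv.Perm ι →* Equiv.Perm ι')))

/-! ### Sylow subgroups -/

def Stmt_SYL : Prop :=
  ∀ (q n : ℕ), q.Prime →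
    (∃ P : Subgroup (Equiv.Perm (Fin n)), Nat.card P = q ^ (n.factorial).factorization q ∧ Rat P) ∧
    (2 ≤ n → ∃ P : Subgroup (Equiv.Perm (Fin n)), P ≤ alternatingGroup (Fin n) ∧
      Nat.card P = 2 ^ ((n.factorial).factorization 2 - 1) ∧ Rat P)

/-- The theorem. -/
def Stmt_FINAL : Prop :=
  ∀ (n p : ℕ), p.Prime → ∀ P : Sylow p (alternatingGroup (Fin n)),
    PurelyTranscendental
        (invField ((P : Subgroup (alternatingGroup (Fin n))).map
          (alternatingGroup (Fin n)).subtype)) ∧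
      invField (alternatingGroup (Fin n)) ≤
        invField ((P : Subgroup (alternatingGroup (Fin n))).map
          (alternatingGroup (Fin n)).subtype) ∧
      ∃ r : ℕ, relfinrank (invField (alternatingGroup (Fin n)))
        (invField ((P : Subgroup (alternatingGroup (Fin n))).map
          (alternatingGroup (Fin n)).subtype)) = r ∧ r ≠ 0 ∧ ¬ p ∣ r

end Pool.Agent.Lib_helper20.Noether
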