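import Pool.Agent.Lib_helper20.Noether.Stmts

/-!
# TRANS: renaming the variables
-/

open MvPolynomial IntermediateField

namespace Pool.Agent.Lib_helper20.Noether

namespace TRANS

/-- The isomorphism of the fields of rational functions given by a bijection of the variables. -/
noncomputable def iso {ι ι' : Type} (e : ι ≃ ι') : E ι ≃ₐ[ℂ] E ι' :=
  IsFractionRing.algEquivOfAlgEquiv (renameEquiv ℂ e)

theorem iso_alg {ι ι' : Type} (e : ι ≃ ι') (p : MvPolynomial ι ℂ) :
    iso e (algebraMap (MvPolynomial ι ℂ) (E ι) p) =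
      algebraMap (MvPolynomial ι' ℂ) (E ι') (rename e p) := by
  unfold iso
  rw [IsFractionRing.algEquivOfAlgEquiv_algebraMap]
  rfl

theorem perm_alg {ι : Type} (σ : Equiv.Perm ι) (p : MvPolynomial ι ℂ) :
    perm σ (algebraMap (MvPolynomial ι ℂ) (E ι) p) =
      algebraMap (MvPolynomial ι ℂ) (E ι) (rename σ p) := by
  unfold perm
  rw [IsFractionRing.algEquivOfAlgEquiv_algebraMap]
  rfl

theorem iso_x {ι ι' : Type} (e : ι ≃ ι') (i : ι) : iso e (x i) = x (e i) := by
  unfold x
  rw [iso_alg, rename_X]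

theorem iso_perm {ι ι' : Type} (e : ι ≃ ι') (σ : Equiv.Perm ι) (f : E ι) :
    perm (e.permCongrHom σ) (iso e f) = iso e (perm σ f) := by
  obtain ⟨a, b, -, rfl⟩ := IsFractionRing.div_surjective (A := MvPolynomial ι ℂ) f
  have key : ∀ p : MvPolynomial ι ℂ,
      perm (e.permCongrHom σ) (iso e (algebraMap (MvPolynomial ι ℂ) (E ι) p)) =
        iso e (perm σ (algebraMap (MvPolynomial ι ℂ) (E ι) p)) := by
    intro p
    rw [iso_alg, perm_alg, perm_alg, iso_alg, rename_rename, rename_rename]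
    congr 3
    funext i
    simp [Equiv.permCongrHom]
  rw [map_div₀, map_div₀, map_div₀, map_div₀, key, key]

/-- The isomorphism carries invariants to invariants. -/
theorem map_inv {ι ι' : Type} (e : ι ≃ ι') (H : Subgroup (Equiv.Perm ι)) :
    (invField H).map (iso e : E ι →ₐ[ℂ] E ι') =
      invField (H.map (e.permCongrHom : Equiv.Perm ι →* Equiv.Perm ι')) := by
  ext f
  constructor
  · intro hf
    obtain ⟨g, hg, rfl⟩ := hf
    intro τ hτ
    obtain ⟨σ, hσ, rfl⟩ := hτ
    have h := iso_perm e σ g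
    have h2 : perm σ g = g := hg σ hσ
    rw [h2] at h
    exact h
  · intro hf
    refine ⟨(iso e).symm f, ?_, (iso e).apply_symm_apply f⟩
    intro σ hσ
    apply (iso e).injective
    rw [← iso_perm, (iso e).apply_symm_apply]
    exact hf _ ⟨σ, hσ, rfl⟩

/-- Generators are carried to generators. -/
theorem gens {ι ι' : Type} (e : ι ≃ ι') (H : Subgroup (Equiv.Perm ι)) (y : ι → E ι)
    (hy : adjoin ℂ (Set.range y) = invField H) :
    adjoin ℂ (Set.range fun j => iso e (y (e.symm j))) =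
      invField (H.map (e.permCongrHom : Equiv.Perm ι →* Equiv.Perm ι')) := by
  rw [← map_inv, ← hy, IntermediateField.adjoin_map]
  congr 1
  ext f
  constructor
  · rintro ⟨j, rfl⟩
    exact ⟨y (e.symm j), ⟨e.symm j, rfl⟩, rfl⟩
  · rintro ⟨g, ⟨i, rfl⟩, rfl⟩
    exact ⟨e i, by simp⟩

end TRANS

theorem TRANS_thm : Stmt_TRANS := by
  intro ι ι' _ _ e H
  constructor
  · rintro ⟨y, hy⟩
    exact ⟨_, TRANS.gens e H y hy⟩
  · rintro ⟨y, hy, i, hi⟩
    refine ⟨_, TRANS.gens e H y hy, e i, ?_⟩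
    show TRANS.iso e (y (e.symm (e i))) = _
    rw [Equiv.symm_apply_apply, hi, map_prod]
    simp only [TRANS.iso_x]
    exact Equiv.prod_comp e (fun j => (x j : E ι'))

end Pool.Agent.Lib_helper20.Noether
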