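import Pool.Agent.Lib_helper20.Noether.Stmts

/-!
# VAND: Vandermonde
-/

open IntermediateField

namespace Pool.Agent.Lib_helper20.Noether

theorem VAND_thm : Stmt_VAND := by
  classical
  intro K Ω _ _ _ M ι _ Y W hY hM hW j
  let y : ι → M := fun i => ⟨Y i, hM i⟩
  have hy : Function.Injective y := fun a b h => hY (congrArg Subtype.val h)
  have hinj : Set.InjOn y (Finset.univ : Finset ι) := hy.injOn
  let L : Polynomial M := Lagrange.basis Finset.univ y j
  have hdeg : L.natDegree < Fintype.card ι := by
    have h1 : L.degree = ((Finset.univ : Finset ι).card - 1 : ℕ) :=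
      Lagrange.degree_basis hinj (Finset.mem_univ j)
    have h2 := Polynomial.natDegree_eq_of_degree_eq_some h1
    rw [h2, Finset.card_univ]
    have : 0 < Fintype.card ι := Fintype.card_pos_iff.2 ⟨j⟩
    omega
  have hev : ∀ i, (L.eval (y i) : M) = if i = j then 1 else 0 := by
    intro i
    by_cases h : i = j
    · rw [if_pos h, h]
      exact Lagrange.eval_basis_self hinj (Finset.mem_univ j)
    · rw [if_neg h]
      exact Lagrange.eval_basis_of_ne (fun e => h e.symm) (Finset.mem_univ i)
  have key : W j = ∑ n ∈ Finset.range (Fintype.card ι), (L.coeff n : Ω) * ∑ i, Y i ^ n * W i := by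
    have h1 : W j = ∑ i, ((L.eval (y i) : M) : Ω) * W i := by
      rw [Finset.sum_eq_single j]
      · rw [hev j, if_pos rfl]
        simp
      · intro i _ hi
        rw [hev i, if_neg hi]
        simp
      · intro h
        exact absurd (Finset.mem_univ j) h
    rw [h1]
    have h2 : ∀ i, ((L.eval (y i) : M) : Ω) =
        ∑ n ∈ Finset.range (Fintype.card ι), (L.coeff n : Ω) * Y i ^ n := by
      intro i
      rw [Polynomial.eval_eq_sum_range' hdeg]
      push_cast
      rfl
    simp_rw [h2, Finset.sum_mul, Finset.mul_sum]
    rw [Finset.sum_comm]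
    exact Finset.sum_congr rfl fun n _ => Finset.sum_congr rfl fun i _ => by ring
  rw [key]
  exact sum_mem fun n hn => mul_mem (L.coeff n).2 (hW n (Finset.mem_range.1 hn))

end Pool.Agent.Lib_helper20.Noether
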